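import Pool.Agent.Helper54.NB.M1r
import Pool.Agent.Helper82.TP.Base

/-! LEMMA NB (`R^4`, `d = 1`): data, hypotheses, the interface to the planks (`PLKr`), the statement. Coordinates `t`,
`y = a + t x`, `R = cR + t F`, `z = cz + t v`; labels `K s` of the windows `s` with boxes of weights `(1, w1, w)`;
connectedness is used only for literal agreement functions of the line and of the point. -/

set_option autoImplicit false

namespace Pool.Agent.Helper54.NB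

open Finset Filter Topology Pool.Agent.Helper69.RK Pool.Agent.Helper31.EC Pool.Agent.Helper82.TP

noncomputable section

open Sp QS

/-- data of the corner -/
structure NBD (S : Sp) where
  t : QS S
  x : QS S
  a : QS S
  F : QS S
  cR : QS S
  v : QS S
  cz : QS S
  αA : ℕ → Type
  VA : ∀ k, (S.F k).Ω → αA k
  αB : ℕ → Type
  VB : ∀ k, (S.F k).Ω → αB k
  K : ℝ → S.L
  c : ℝ → QS S

namespace NBD

variable {S : Sp} (H : NBD S)

/-- second coordinate of the point -/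
def y : QS S := H.a + H.t * H.x
/-- the vertical coordinate of weight `w1` -/
def R : QS S := H.cR + H.t * H.F
/-- the vertical coordinate of weight `w` -/
def z : QS S := H.cz + H.t * H.v
/-- the base point -/
def q : S.L := dg H.t 1 ⊔ dg H.y 1
/-- the base line -/
def b : S.L := dg H.x 1 ⊔ dg H.a 1
/-- the point without `z` -/
def M : S.L := dg H.t 1 ⊔ dg H.y 1 ⊔ dg H.R 1
/-- information of the line variable -/
def iA : S.L := io H.VA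
/-- information of the point variable -/
def iB : S.L := io H.VB

/-- restriction to an event -/
def rest (E : ∀ k, (S.F k).Ω → Prop) (hE : 0 < ul (S.pr E)) : NBD (S.rest E) where
  t := QS.rest E hE H.t
  x := QS.rest E hE H.x
  a := QS.rest E hE H.a
  F := QS.rest E hE H.F
  cR := QS.rest E hE H.cR
  v := QS.rest E hE H.v
  cz := QS.rest E hE H.cz
  αA := H.αA
  VA := H.VA
  αB := H.αB
  VB := H.VB
  K := fun s => restL E hE (H.K s)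
  c := fun s => QS.rest E hE (H.c s)

end NBD

/-- the hypotheses -/
structure NBH {S : Sp} (H : NBD S) (w1 w ρ σ : ℝ) (Sc : Set ℝ) : Prop where
  -- numbers
  hw1 : 1 < w1
  hw : w1 ≤ w
  hρ : 0 < ρ
  hσ : 0 < σ
  hwσ : w * σ ≤ 1
  -- literal variables of the line and of the point
  bA : Bdd H.VA
  bB : Bdd H.VB
  lx : Lit H.VA H.x
  la : Lit H.VA H.a
  lF : Lit H.VA H.F
  lcR : Lit H.VA H.cR
  lv : Lit H.VA H.v
  lcz : Lit H.VA H.cz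
  lt : Lit H.VB H.t
  ly : Lit H.VB H.y
  lR : Lit H.VB H.R
  lz : Lit H.VB H.z
  -- time, direction
  time : h (dg H.t 1) H.iA = 1
  T1 : I (dg H.x 1) H.iB ⊥ = 0
  -- `z` is robustly unsaturated
  uns : UnS H.z H.M 0 ρ
  -- the labels and their frames
  pos : ∀ s ∈ Sc, 0 < s
  le : ∀ s ∈ Sc, s ≤ σ
  dense : ∀ a b, 0 < a → a < b → b ≤ σ → ∃ s ∈ Sc, a < s ∧ s < b
  KB : ∀ s ∈ Sc, H.K s ≤ H.iB
  mono : ∀ s ∈ Sc, ∀ s' ∈ Sc, s ≤ s' → H.K s ≤ H.K s'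
  cK : ∀ s ∈ Sc, dg (H.c s) 1 ≤ H.K s
  frZ : ∀ s ∈ Sc, ∃ e : QS S, dg e 1 ≤ H.K s ⊔ H.q ∧ H.z - (e + H.c s * H.R) ∈ Id S (w * s)
  frR : ∀ s ∈ Sc, dg H.R (w1 * s) ≤ H.K s ⊔ H.q
  -- `R` is full beyond its box
  full : ∀ s ∈ Sc, 1 - w1 * s ≤ h (dg H.R 1) (H.K s ⊔ H.q)
  -- literal agreement functions are constant
  agr : ∀ (E : ∀ k, (S.F k).Ω → Prop) (hE : 0 < ul (S.pr E)) (gA gB : QS S), Lit H.VA gA → Lit H.VB gB →
    QS.rest E hE gA = QS.rest E hE gB → dg (QS.rest E hE gB) 1 = ⊥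
  -- the projections along constant tilts are full beyond their boxes
  H4 : ∀ (E : ∀ k, (S.F k).Ω → Prop) (hE : 0 < ul (S.pr E)) (gA gB : QS S), Lit H.VA gA → Lit H.VB gB →
    QS.rest E hE gA = QS.rest E hE gB → ∀ s ∈ Sc, QS.rest E hE (gB - H.c s) ∈ Id (S.rest E) ((w - w1) * s) →
    1 - w * s ≤ h (dg (QS.rest E hE (H.z - gB * H.R)) 1) (restL E hE (H.K s ⊔ H.q))

/-- PLANKS (from `ST 1 2` for the fibre system over `b`): if the velocities are not functions of the point then on some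
event of an extension the lines over `b` lie in planks `z = β0 + β1 t + α R`, the coefficients are functions of the
line and of the point, and `R` is full over the plank beyond the level `e'` -/
def PLKr : Prop :=
  ∀ (S : Sp) (b : S.L) (t cR XR cz Xz : QS S) (r ρ e e' : ℝ), 0 < r → r ≤ 1 → 0 < ρ → 0 < e → e < e' → e' < r →
    h (dg t 1) (dg cR 1 ⊔ dg XR 1 ⊔ dg cz 1 ⊔ dg Xz 1 ⊔ b) = 1 →
    (∀ (T : Sp) (p : Pj T S) (E : ∀ k, (T.F k).Ω → Prop) (hE : 0 < ul (T.pr E)) (v : ℝ), 0 ≤ v → v ≤ r →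
      h (restL E hE (p.map (dg (cz + t * Xz) r)))
        (restL E hE (p.map (dg (cz + t * Xz) v ⊔ dg (cR + t * XR) r ⊔ dg t 1 ⊔ b))) ≤ (1 - ρ) * (r - v)) →
    0 < h (dg XR e ⊔ dg Xz e) (dg (cR + t * XR) r ⊔ dg (cz + t * Xz) r ⊔ dg t 1 ⊔ b) →
    ∃ (W : Sp) (p : Pj W S) (E : ∀ k, (W.F k).Ω → Prop) (hE : 0 < ul (W.pr E)) (α β0 β1 : QS (W.rest E))
      (V : (W.rest E).L),
      V ≤ restL E hE (p.map (dg cR r ⊔ dg XR r ⊔ dg cz r ⊔ dg Xz r ⊔ b)) ∧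
      V ≤ restL E hE (p.map (dg (cR + t * XR) r ⊔ dg (cz + t * Xz) r ⊔ dg t 1 ⊔ b)) ∧
      dg α r ≤ V ∧ dg β0 r ≤ V ∧ dg β1 r ≤ V ∧
      QS.rest E hE (p.qs (cz + t * Xz)) -
        (β0 + β1 * QS.rest E hE (p.qs t) + α * QS.rest E hE (p.qs (cR + t * XR))) ∈ Id (W.rest E) r ∧
      r - e' ≤ h (restL E hE (p.map (dg (cR + t * XR) r)))
        (V ⊔ restL E hE (p.map (dg (cR + t * XR) e' ⊔ dg t 1 ⊔ b))) ∧
      ∀ (D : Sp) (q : Pj D (W.rest E)) (τ : QS D),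
        h (dg (q.qs (QS.rest E hE (p.qs cR)) + τ * q.qs (QS.rest E hE (p.qs XR))) e')
          (q.map V ⊔ dg τ 1 ⊔ q.map (restL E hE (p.map b))) ≤
        h (restL E hE (p.map (dg (cR + t * XR) e'))) (V ⊔ restL E hE (p.map (dg t 1 ⊔ b)))

/-- the same over the base of the space at full depth (`b = ⊥`, `r = 1`) -/
def PLK1 : Prop :=
  ∀ (S : Sp) (t cR XR cz Xz : QS S) (ρ e e' : ℝ), 0 < ρ → 0 < e → e < e' → e' < 1 →
    h (dg t 1) (dg cR 1 ⊔ dg XR 1 ⊔ dg cz 1 ⊔ dg Xz 1) = 1 →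
    (∀ (T : Sp) (p : Pj T S) (E : ∀ k, (T.F k).Ω → Prop) (hE : 0 < ul (T.pr E)) (v : ℝ), 0 ≤ v → v ≤ 1 →
      h (restL E hE (p.map (dg (cz + t * Xz) 1)))
        (restL E hE (p.map (dg (cz + t * Xz) v ⊔ dg (cR + t * XR) 1 ⊔ dg t 1))) ≤ (1 - ρ) * (1 - v)) →
    0 < h (dg XR e ⊔ dg Xz e) (dg (cR + t * XR) 1 ⊔ dg (cz + t * Xz) 1 ⊔ dg t 1) →
    ∃ (W : Sp) (p : Pj W S) (E : ∀ k, (W.F k).Ω → Prop) (hE : 0 < ul (W.pr E)) (α β0 β1 : QS (W.rest E))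
      (V : (W.rest E).L),
      V ≤ restL E hE (p.map (dg cR 1 ⊔ dg XR 1 ⊔ dg cz 1 ⊔ dg Xz 1)) ∧
      V ≤ restL E hE (p.map (dg (cR + t * XR) 1 ⊔ dg (cz + t * Xz) 1 ⊔ dg t 1)) ∧
      dg α 1 ≤ V ∧ dg β0 1 ≤ V ∧ dg β1 1 ≤ V ∧
      QS.rest E hE (p.qs (cz + t * Xz)) =
        β0 + β1 * QS.rest E hE (p.qs t) + α * QS.rest E hE (p.qs (cR + t * XR)) ∧
      1 - e' ≤ h (restL E hE (p.map (dg (cR + t * XR) 1)))
        (V ⊔ restL E hE (p.map (dg (cR + t * XR) e' ⊔ dg t 1))) ∧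
      ∀ (D : Sp) (q : Pj D (W.rest E)) (τ : QS D),
        h (dg (q.qs (QS.rest E hE (p.qs cR)) + τ * q.qs (QS.rest E hE (p.qs XR))) e') (q.map V ⊔ dg τ 1) ≤
        h (restL E hE (p.map (dg (cR + t * XR) e'))) (V ⊔ restL E hE (p.map (dg t 1)))

/-- LEMMA NB (statement) -/
def ST_NB : Prop :=
  ∀ (S : Sp) (H : NBD S) (w1 w ρ σ : ℝ) (Sc : Set ℝ), NBH H w1 w ρ σ Sc → ∀ s ∈ Sc, ∀ g : ℝ, 0 < g → g < s →
    dg H.F ((w1 - 1) * s + g) ≤ H.b ⊔ dg H.t 1 ⊔ H.K s ∧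
    dg (H.v - H.c s * H.F) ((w - 1) * s + g) ≤ H.b ⊔ dg H.t 1 ⊔ dg H.R 1 ⊔ H.K s ∧
    (w = w1 → dg H.v ((w - 1) * s + g) ≤ H.b ⊔ dg H.t 1 ⊔ H.K s)

end

end Pool.Agent.Helper54.NB
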