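import Pool.Agent.Helper54.NB.Fin
import Pool.Agent.Helper8.PLK.Ad
import Pool.Agent.Helper8.PLK.Plk

/-! Row B_NB from `PLK1`. -/

set_option autoImplicit false

namespace Pool.Agent.Helper54.NB

/-- row B_NB of case B from `PLK1` (planks over the base at full depth) -/
theorem nb_row (st : Prop) (h1 : st → PLK1) : Pool.Agent.Helper31.NSB.ST_NB st :=
  Pool.Agent.Helper8.PLK.st_nb st (fun h => st_nb (Pool.Agent.Helper8.PLK.plkr_of (h1 h)))

end Pool.Agent.Helper54.NB
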