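import Pool.Agent.Helper54.NB.M1q
import Pool.Agent.Helper54.NB.Str
import Pool.Agent.Helper62.UR.Lc

/-! Planks: the tilt of the plank is a function of the point and a function of the line (two copies agree). -/

set_option autoImplicit false

namespace Pool.Agent.Helper54.NB

open Finset Filter Topology Pool.Agent.Helper69.RK Pool.Agent.Helper31.EC Pool.Agent.Helper82.TP
open Pool.Agent.Helper25.EC Pool.Agent.Helper62.UR

noncomputable section

open Sp QS

section two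

variable {S : Sp} {β : ℕ → Type} (V : ∀ k, (S.F k).Ω → β k)

theorem two_common (hV : Bdd V) : (two1 V).map (io V) = (two2 V).map (io V) := by
  have h1 := (Pj.id S).join_common (V := V) hV
  rw [Pj.id_map] at h1
  exact h1

theorem two_indep (hV : Bdd V) (x y : S.L) : I ((two1 V).map x) ((two2 V).map y) ((two1 V).map (io V)) = 0 := by
  have h1 := (Pj.id S).join_indep (V := V) hV x y
  rw [Pj.id_map] at h1
  exact h1

/-- digits of literal functions are common -/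
theorem two_dg {g : QS S} (hg : Lit V g) (r : ℝ) : (two2 V).map (dg g r) = (two1 V).map (dg g r) := by
  rw [← Pj.qs_dg, ← Pj.qs_dg, lit_two hg]

end two

/-- levels of a function which agrees with another one -/
theorem dg_of_sub {S : Sp} {f g : QS S} {r s : ℝ} (h0 : f - g ∈ Id S r) (hs : s ≤ r) (hr : r ≤ 1) : dg f s = dg g s :=
  dg_eq_of_sub_mem h0 hs (hs.trans hr)

/-- POINT AGREEMENT -/
theorem pt_agree {D : Sp} {β : ℕ → Type} (VB : ∀ k, (D.F k).Ω → β k) (hVB : Bdd VB) (t y T Z α β0 β1 : QS D)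
    (V b xx : D.L) (r e' ρ : ℝ) (hρ : 0 < ρ) (he : 0 ≤ e') (hr : r ≤ 1)
    (lt : Lit VB t) (ly : Lit VB y) (lT : Lit VB T) (lZ : Lit VB Z)
    (hx : I xx (io VB) ⊥ = 0) (hb : b ≤ xx ⊔ (dg t 1 ⊔ dg y 1)) (hq : dg t 1 ⊔ dg y 1 ≤ dg t 1 ⊔ b)
    (hV : V ≤ dg T r ⊔ dg Z r ⊔ dg t 1 ⊔ b) (hα : dg α r ≤ V) (h0 : dg β0 r ≤ V) (h1 : dg β1 r ≤ V)
    (hZ : Z - (β0 + β1 * t + α * T) ∈ Id D r)
    (hfull : r - e' ≤ h (dg T r) (V ⊔ (dg T e' ⊔ dg t 1 ⊔ b)))
    (huns : ∀ v, 0 ≤ v → v ≤ r → Uq D (dg Z r) (dg Z v ⊔ (dg T r ⊔ (dg t 1 ⊔ dg y 1))) ((1 - ρ) * (r - v))) :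
    (two1 VB).qs α - (two2 VB).qs α ∈ Id (two VB) (r - e') := by
  set p1 := two1 VB with hp1
  set p2 := two2 VB with hp2
  have et : p2.qs t = p1.qs t := (lit_two lt).symm
  have ey : p2.qs y = p1.qs y := (lit_two ly).symm
  have eT : p2.qs T = p1.qs T := (lit_two lT).symm
  have eZ : p2.qs Z = p1.qs Z := (lit_two lZ).symm
  -- the two representations of `Z`
  have z1 : p1.qs Z - (p1.qs β0 + p1.qs β1 * p1.qs t + p1.qs T * p1.qs α) ∈ Id (two VB) r := by
    have h2 := Pj_mem_Id p1 hZ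
    simp only [map_sub, map_add, map_mul] at h2
    rwa [mul_comm (p1.qs α)] at h2
  have z2 : p1.qs Z - (p2.qs β0 + p2.qs β1 * p1.qs t + p1.qs T * p2.qs α) ∈ Id (two VB) r := by
    have h2 := Pj_mem_Id p2 hZ
    simp only [map_sub, map_add, map_mul] at h2
    rwa [et, eT, eZ, mul_comm (p2.qs α)] at h2
  have dz : ∀ s, s ≤ r → dg (p1.qs β0 + p1.qs β1 * p1.qs t + p1.qs T * p1.qs α) s = p1.map (dg Z s) := by
    intro s hs
    rw [← Pj.qs_dg, ← dg_of_sub z1 hs hr]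
  set q : D.L := dg t 1 ⊔ dg y 1 with hqd
  have cq : p2.map q = p1.map q := by rw [hqd, Pj.map_sup, Pj.map_sup, two_dg VB lt, two_dg VB ly]
  have cT : ∀ s, p2.map (dg T s) = p1.map (dg T s) := fun s => two_dg VB lT s
  have cZ : ∀ s, p2.map (dg Z s) = p1.map (dg Z s) := fun s => two_dg VB lZ s
  have ct : p2.map (dg t 1) = p1.map (dg t 1) := two_dg VB lt 1
  refine m1_qs (p1.qs α) (p1.qs β0 + p1.qs β1 * p1.qs t) (p1.qs T) (p2.qs α) (p2.qs β0 + p2.qs β1 * p1.qs t)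
    (p1.map (q ⊔ dg T e')) (p1.map (V ⊔ b)) (p2.map (V ⊔ b)) r e' ρ hρ he hr ?_ ?_ ?_ ?_ ?_ ?_ ?_ ?_ ?_ ?_
  · have h2 := (Id (two VB) r).sub_mem z2 z1
    have e1 : p1.qs Z - (p2.qs β0 + p2.qs β1 * p1.qs t + p1.qs T * p2.qs α) -
        (p1.qs Z - (p1.qs β0 + p1.qs β1 * p1.qs t + p1.qs T * p1.qs α)) =
        p1.qs β0 + p1.qs β1 * p1.qs t + p1.qs T * p1.qs α - (p2.qs β0 + p2.qs β1 * p1.qs t + p1.qs T * p2.qs α) := by
      ring
    rwa [e1] at h2
  · rw [Pj.qs_dg]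
    exact p1.map_mono le_sup_right
  · rw [Pj.qs_dg]
    exact p1.map_mono (hα.trans le_sup_left)
  · refine dg_add_le' _ _ hr ?_ (dg_mul_le' _ _ hr ?_ ?_)
    · rw [Pj.qs_dg]
      exact (p1.map_mono (h0.trans le_sup_left)).trans le_sup_left
    · rw [Pj.qs_dg]
      exact (p1.map_mono (h1.trans le_sup_left)).trans le_sup_left
    · rw [Pj.qs_dg]
      exact (p1.map_mono ((dg_mono t hr).trans (le_sup_left.trans le_sup_left))).trans le_sup_right
  · rw [Pj.qs_dg]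
    exact p2.map_mono (hα.trans le_sup_left)
  · refine dg_add_le' _ _ hr ?_ (dg_mul_le' _ _ hr ?_ ?_)
    · rw [Pj.qs_dg]
      exact (p2.map_mono (h0.trans le_sup_left)).trans le_sup_left
    · rw [Pj.qs_dg]
      exact (p2.map_mono (h1.trans le_sup_left)).trans le_sup_left
    · rw [Pj.qs_dg]
      exact (p1.map_mono ((dg_mono t hr).trans (le_sup_left.trans le_sup_left))).trans le_sup_right
  · rw [Pj.qs_dg, ← Pj.map_sup, Pj.h_map]
    refine hfull.trans (h_anti ?_)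
    refine sup_le (sup_le le_sup_left (le_sup_right.trans le_sup_right)) (sup_le (hq.trans ?_) ?_)
    · exact (sup_le (le_sup_right.trans le_sup_left) le_sup_right).trans le_sup_right
    · exact (le_sup_left.trans le_sup_left).trans le_sup_right
  · have h2 : p1.map (q ⊔ dg T e') = p2.map (q ⊔ dg T e') := by
      rw [p1.map_sup q, p2.map_sup q, cq, cT]
    rw [← eT, Pj.qs_dg, h2, ← Pj.map_sup, Pj.h_map]
    refine hfull.trans (h_anti ?_)
    refine sup_le (sup_le le_sup_left (le_sup_right.trans le_sup_right)) (sup_le (hq.trans ?_) ?_)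
    · exact (sup_le (le_sup_right.trans le_sup_left) le_sup_right).trans le_sup_right
    · exact (le_sup_left.trans le_sup_left).trans le_sup_right
  · rw [dz r le_rfl, Pj.qs_dg, ← Pj.map_sup, ← Pj.map_sup]
    set C : D.L := dg T r ⊔ dg Z r ⊔ (q ⊔ dg T e') with hC
    have hCi : C ≤ io VB := by
      refine sup_le (sup_le (lT.dg_le hVB hr) (lZ.dg_le hVB hr)) (sup_le (sup_le (lt.dg_le hVB le_rfl)
        (ly.dg_le hVB le_rfl)) ?_)
      rcases le_total e' 1 with h2 | h2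
      · exact lT.dg_le hVB h2
      · rw [dg_cut _ h2]; exact lT.dg_le hVB le_rfl
    have cC : p2.map C = p1.map C := by
      rw [hC, p1.map_sup (dg T r ⊔ dg Z r), p2.map_sup (dg T r ⊔ dg Z r), p1.map_sup (dg T r), p2.map_sup (dg T r),
        p1.map_sup q, p2.map_sup q, cT, cZ, cq, cT]
    have hVC : V ⊔ b ≤ xx ⊔ C := by
      have hb' : b ≤ xx ⊔ C := hb.trans (sup_le_sup_left (le_sup_left.trans le_sup_right) _)
      refine sup_le (hV.trans (sup_le (sup_le ?_ ?_) hb')) hb'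
      · exact le_sup_left.trans le_sup_right
      · exact (le_sup_left.trans (le_sup_left.trans le_sup_right)).trans le_sup_right
    have i1 : I (p1.map xx) (p2.map xx) (p1.map (io VB)) = 0 := two_indep VB hVB xx xx
    have i2 : I (p1.map xx) (p1.map (io VB)) ⊥ = 0 := by
      have h2 := p1.I_map xx (io VB) ⊥
      rw [Pj.map_bot] at h2
      rw [h2]; exact hx
    have i3 : I (p1.map xx) (p1.map (io VB) ⊔ p2.map xx) ⊥ = 0 := I_contract i2 (by rw [sup_bot_eq]; exact i1)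
    have i4 : I (p1.map xx) (p1.map C ⊔ p2.map xx) ⊥ = 0 := by
      refine I_zero_mono i3 le_sup_left (sup_le ?_ ?_)
      · exact ((p1.map_mono hCi).trans le_sup_left).trans le_sup_left
      · exact le_sup_right.trans le_sup_left
    have i5 : I (p1.map xx) (p2.map xx) (p1.map C) = 0 := by
      have h2 := (I_decomp i4).2
      rwa [sup_bot_eq] at h2
    refine I_zero_mono i5 ?_ ?_
    · rw [← Pj.map_sup]
      exact p1.map_mono hVC
    · rw [← cC, ← Pj.map_sup]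
      exact p2.map_mono hVC
  · intro E hE v hv1 hv2
    rw [dz r le_rfl, dz v hv2, Pj.qs_dg, ← Pj.map_sup, ← Pj.map_sup]
    have h2 := huns v (he.trans hv1) hv2 ⟨two VB, p1, E, hE⟩
    refine le_trans (h_anti ?_) h2
    refine restL_mono E hE (p1.map_mono ?_)
    refine sup_le le_sup_left (sup_le ?_ ?_)
    · exact le_sup_left.trans le_sup_right
    · exact (le_sup_left.trans le_sup_right).trans le_sup_right

/-- (levels form) a polynomial of degree one in a real variable is small only if the coefficients are small -/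
theorem lin_small' {M : Sp} {c0 c1 x : QS M} {X : M.L} {r : ℝ} (h0r : 0 ≤ r) (hr : r ≤ 1) (h0 : dg c0 r ≤ X)
    (h1 : dg c1 r ≤ X) (hx : h (dg x 1) X = 1) (hz : c0 + c1 * x ∈ Id M r) : c0 ∈ Id M r ∧ c1 ∈ Id M r := by
  obtain ⟨d0, a0, b0⟩ := Helper72.LR.exists_trunc c0 h0r hr
  obtain ⟨d1, a1, b1⟩ := Helper72.LR.exists_trunc c1 h0r hr
  have h2 : d0 + d1 * x ∈ Id M r := by
    have e1 : d0 + d1 * x = (d0 - c0) + x * (d1 - c1) + (c0 + c1 * x) := by ring
    rw [e1]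
    exact (Id M r).add_mem ((Id M r).add_mem a0 ((Id M r).mul_mem_left _ a1)) hz
  obtain ⟨m0, m1⟩ := Helper72.LR.lin_small hr (b0.trans h0) (b1.trans h1) hx h2
  have e0 : c0 = d0 - (d0 - c0) := by ring
  have e1 : c1 = d1 - (d1 - c1) := by ring
  rw [e0, e1]
  exact ⟨(Id M r).sub_mem m0 a0, (Id M r).sub_mem m1 a1⟩

/-- LINE AGREEMENT -/
theorem ln_agree {D : Sp} {β : ℕ → Type} (VA : ∀ k, (D.F k).Ω → β k) (hVA : Bdd VA) (t x a cR F cz v α β0 β1 : QS D)
    (V q : D.L) (r e' ρ : ℝ) (hρ : 0 < ρ) (he : 0 ≤ e') (her : e' ≤ r) (hr : r ≤ 1)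
    (lx : Lit VA x) (la : Lit VA a) (lcR : Lit VA cR) (lF : Lit VA F) (lcz : Lit VA cz) (lv : Lit VA v)
    (time : h (dg t 1) (io VA) = 1) (hq : q ≤ dg t 1 ⊔ (dg x 1 ⊔ dg a 1))
    (hVl : V ≤ dg cR r ⊔ dg F r ⊔ dg cz r ⊔ dg v r ⊔ (dg x 1 ⊔ dg a 1))
    (hVp : V ≤ dg (cR + t * F) r ⊔ dg (cz + t * v) r ⊔ dg t 1 ⊔ (dg x 1 ⊔ dg a 1))
    (hα : dg α r ≤ V) (h0 : dg β0 r ≤ V) (h1 : dg β1 r ≤ V)
    (hZ : cz + t * v - (β0 + β1 * t + α * (cR + t * F)) ∈ Id D r)
    (hfull : r - e' ≤ h (dg (cR + t * F) r) (V ⊔ (dg (cR + t * F) e' ⊔ dg t 1 ⊔ (dg x 1 ⊔ dg a 1))))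
    (hcmp : ∀ (D' : Sp) (p : Pj D' D) (τ : QS D'), h (dg (p.qs cR + τ * p.qs F) e')
      (p.map V ⊔ dg τ 1 ⊔ p.map (dg x 1 ⊔ dg a 1)) ≤ h (dg (cR + t * F) e') (V ⊔ (dg t 1 ⊔ (dg x 1 ⊔ dg a 1))))
    (huns : ∀ v', 0 ≤ v' → v' ≤ r → Uq D (dg (cz + t * v) r) (dg (cz + t * v) v' ⊔ (dg (cR + t * F) r ⊔ q))
      ((1 - ρ) * (r - v'))) :
    (two1 VA).qs α - (two2 VA).qs α ∈ Id (two VA) (r - e') := by
  set p1 := two1 VA with hp1
  set p2 := two2 VA with hp2
  have hr0 : 0 ≤ r := he.trans her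
  set b : D.L := dg x 1 ⊔ dg a 1 with hbd
  set Λ : D.L := dg cR r ⊔ dg F r ⊔ dg cz r ⊔ dg v r ⊔ b with hΛ
  set T0 : QS D := cR + t * F with hT0
  set Z0 : QS D := cz + t * v with hZ0
  have cb : p2.map b = p1.map b := by rw [hbd, Pj.map_sup, Pj.map_sup, two_dg VA lx, two_dg VA la]
  have hbi : b ≤ io VA := sup_le (lx.dg_le hVA le_rfl) (la.dg_le hVA le_rfl)
  have hΛi : Λ ≤ io VA := sup_le (sup_le (sup_le (sup_le (lcR.dg_le hVA hr) (lF.dg_le hVA hr)) (lcz.dg_le hVA hr))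
    (lv.dg_le hVA hr)) hbi
  have cΛ : p2.map Λ = p1.map Λ := by
    rw [hΛ, p1.map_sup, p2.map_sup, p1.map_sup, p2.map_sup, p1.map_sup, p2.map_sup, p1.map_sup, p2.map_sup, cb,
      two_dg VA lcR, two_dg VA lF, two_dg VA lcz, two_dg VA lv]
  have ecR : p2.qs cR = p1.qs cR := (lit_two lcR).symm
  have eF : p2.qs F = p1.qs F := (lit_two lF).symm
  have ecz : p2.qs cz = p1.qs cz := (lit_two lcz).symm
  have ev : p2.qs v = p1.qs v := (lit_two lv).symm
  -- the plank contains the line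
  have hA : cz - β0 - α * cR ∈ Id D r ∧ v - β1 - α * F ∈ Id D r := by
    have hx' : h (dg t 1) Λ = 1 := le_antisymm (h_dg_le_one _ _) (time.ge.trans (h_anti hΛi))
    refine lin_small' (x := t) (X := Λ) hr0 hr ?_ ?_ hx' ?_
    · exact dg_sub_le' _ _ hr (dg_sub_le' _ _ hr (le_sup_right.trans (le_sup_left.trans le_sup_left)) (h0.trans hVl))
        (dg_mul_le' _ _ hr (hα.trans hVl)
          (le_sup_left.trans (le_sup_left.trans (le_sup_left.trans le_sup_left))))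
    · exact dg_sub_le' _ _ hr (dg_sub_le' _ _ hr (le_sup_right.trans le_sup_left) (h1.trans hVl))
        (dg_mul_le' _ _ hr (hα.trans hVl)
          (le_sup_right.trans (le_sup_left.trans (le_sup_left.trans le_sup_left))))
    · have e1 : cz - β0 - α * cR + (v - β1 - α * F) * t = Z0 - (β0 + β1 * t + α * T0) := by
        rw [hZ0, hT0]; ring
      rw [e1]; exact hZ
  set t1 := p1.qs t with ht1
  have eT : p1.qs T0 = p1.qs cR + t1 * p1.qs F := by rw [hT0, map_add, map_mul]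
  have eZ : p1.qs Z0 = p1.qs cz + t1 * p1.qs v := by rw [hZ0, map_add, map_mul]
  have z1 : p1.qs Z0 - (p1.qs β0 + p1.qs β1 * t1 + p1.qs T0 * p1.qs α) ∈ Id (two VA) r := by
    have h2 := Pj_mem_Id p1 hZ
    simp only [map_sub, map_add, map_mul] at h2
    rwa [mul_comm (p1.qs α)] at h2
  have z2 : p1.qs Z0 - (p2.qs β0 + p2.qs β1 * t1 + p1.qs T0 * p2.qs α) ∈ Id (two VA) r := by
    have g0 := Pj_mem_Id p2 hA.1
    have g1 := Pj_mem_Id p2 hA.2
    simp only [map_sub, map_mul] at g0 g1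
    rw [ecz, ecR] at g0
    rw [ev, eF] at g1
    have h2 := (Id (two VA) r).add_mem g0 ((Id (two VA) r).mul_mem_left t1 g1)
    have e1 : p1.qs cz - p2.qs β0 - p2.qs α * p1.qs cR + t1 * (p1.qs v - p2.qs β1 - p2.qs α * p1.qs F) =
        p1.qs Z0 - (p2.qs β0 + p2.qs β1 * t1 + p1.qs T0 * p2.qs α) := by
      rw [eZ, eT]; ring
    rwa [e1] at h2
  have dz : ∀ s, s ≤ r → dg (p1.qs β0 + p1.qs β1 * t1 + p1.qs T0 * p1.qs α) s = p1.map (dg Z0 s) := by
    intro s hs
    rw [← Pj.qs_dg, ← dg_of_sub z1 hs hr]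
  have dt1 : dg t1 1 = p1.map (dg t 1) := Pj.qs_dg _ _ _
  -- fullness over the second plank
  have fu2 : r - e' ≤ h (dg (p1.qs T0) r) (p2.map V ⊔ p1.map (b ⊔ (dg t 1 ⊔ dg T0 e'))) := by
    set X : (two VA).L := p2.map V ⊔ dg t1 1 ⊔ p1.map b with hX
    -- the time of the first copy is real over the second copy
    have i1 : h (dg t1 1) (p1.map (io VA) ⊔ p2.map V) = 1 := by
      have h2 := two_indep VA hVA (dg t 1) V
      rw [I_zero_iff_h] at h2
      rw [dt1, sup_comm, h2, Pj.h_map]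
      exact time
    have hVb : p1.map Λ ⊔ (p2.map V ⊔ p1.map b) ≤ p1.map (io VA) ⊔ p2.map V :=
      sup_le ((p1.map_mono hΛi).trans le_sup_left) (sup_le le_sup_right ((p1.map_mono hbi).trans le_sup_left))
    have i2 : h (p1.map Λ) X = h Λ (V ⊔ b) := by
      have h2 : I (p1.map Λ) (dg t1 1) (p2.map V ⊔ p1.map b) = 0 := by
        apply le_antisymm _ (I_nonneg _ _ _)
        rw [I_eq']
        have h3 : h (dg t1 1) (p2.map V ⊔ p1.map b) ≤ 1 := h_dg_le_one _ _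
        have h4 : 1 ≤ h (dg t1 1) (p1.map Λ ⊔ (p2.map V ⊔ p1.map b)) := i1.ge.trans (h_anti hVb)
        linarith
      rw [I_zero_iff_h] at h2
      have h3 : X = dg t1 1 ⊔ (p2.map V ⊔ p1.map b) := by rw [hX]; ac_rfl
      rw [h3, h2, ← cb, ← cΛ, ← Pj.map_sup, Pj.h_map]
    have hTΛ : dg (p1.qs T0) r ≤ p1.map Λ ⊔ X := by
      rw [eT]
      refine dg_add_le' _ _ hr ?_ (dg_mul_le' _ _ hr ?_ ?_)
      · rw [Pj.qs_dg]
        exact (p1.map_mono (le_sup_left.trans (le_sup_left.trans (le_sup_left.trans le_sup_left)))).trans le_sup_left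
      · exact (dg_mono t1 hr).trans ((le_sup_right.trans le_sup_left).trans le_sup_right)
      · rw [Pj.qs_dg]
        exact (p1.map_mono (le_sup_right.trans (le_sup_left.trans (le_sup_left.trans le_sup_left)))).trans le_sup_left
    have i3 : h (p1.map Λ) X = h (dg (p1.qs T0) r) X + h (p1.map Λ) (dg (p1.qs T0) r ⊔ X) := by
      rw [← h_chain]
      apply h_congr_left
      · exact le_sup_right.trans le_sup_left
      · exact sup_le hTΛ le_sup_left
    have hZX : p1.map (dg Z0 r) ≤ dg (p1.qs T0) r ⊔ X := by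
      rw [← Pj.qs_dg, dg_of_sub z2 le_rfl hr]
      refine dg_add_le' _ _ hr (dg_add_le' _ _ hr ?_ (dg_mul_le' _ _ hr ?_ ?_)) (dg_mul_le' _ _ hr le_sup_left ?_)
      · rw [Pj.qs_dg]; exact (p2.map_mono h0).trans (le_sup_left.trans (le_sup_left.trans le_sup_right))
      · rw [Pj.qs_dg]; exact (p2.map_mono h1).trans (le_sup_left.trans (le_sup_left.trans le_sup_right))
      · exact (dg_mono t1 hr).trans ((le_sup_right.trans le_sup_left).trans le_sup_right)
      · rw [Pj.qs_dg]; exact (p2.map_mono hα).trans (le_sup_left.trans (le_sup_left.trans le_sup_right))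
    have hV1 : p1.map V ≤ dg (p1.qs T0) r ⊔ X := by
      refine (p1.map_mono hVp).trans ?_
      rw [Pj.map_sup, Pj.map_sup, Pj.map_sup, ← Pj.qs_dg, ← dt1]
      exact sup_le (sup_le (sup_le le_sup_left hZX) ((le_sup_right.trans le_sup_left).trans le_sup_right))
        (le_sup_right.trans le_sup_right)
    have i4 : h (p1.map Λ) (dg (p1.qs T0) r ⊔ X) ≤ h Λ (dg T0 r ⊔ (V ⊔ (dg t 1 ⊔ b))) := by
      rw [← p1.h_map]
      apply h_anti
      rw [Pj.map_sup, Pj.map_sup, Pj.map_sup, ← Pj.qs_dg, ← dt1]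
      exact sup_le le_sup_left (sup_le hV1 (sup_le ((le_sup_right.trans le_sup_left).trans le_sup_right)
        (le_sup_right.trans le_sup_right)))
    have i5 : h Λ (V ⊔ (dg t 1 ⊔ b)) = h (dg T0 r) (V ⊔ (dg t 1 ⊔ b)) + h Λ (dg T0 r ⊔ (V ⊔ (dg t 1 ⊔ b))) := by
      rw [← h_chain]
      apply h_congr_left
      · exact le_sup_right.trans le_sup_left
      · refine sup_le ?_ le_sup_left
        rw [hT0]
        refine dg_add_le' _ _ hr ?_ (dg_mul_le' _ _ hr ?_ ?_)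
        · exact (le_sup_left.trans (le_sup_left.trans (le_sup_left.trans le_sup_left))).trans le_sup_left
        · exact (dg_mono t hr).trans ((le_sup_left.trans le_sup_right).trans le_sup_right)
        · exact (le_sup_right.trans (le_sup_left.trans (le_sup_left.trans le_sup_left))).trans le_sup_left
    have i6 : h Λ (V ⊔ (dg t 1 ⊔ b)) ≤ h Λ (V ⊔ b) := h_anti (sup_le_sup_left le_sup_right _)
    have i7 : h (dg T0 r) (V ⊔ (dg t 1 ⊔ b)) =
        h (dg T0 e') (V ⊔ (dg t 1 ⊔ b)) + h (dg T0 r) (dg T0 e' ⊔ (V ⊔ (dg t 1 ⊔ b))) := by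
      have h2 := h_chain (dg T0 e') (dg T0 r) (V ⊔ (dg t 1 ⊔ b))
      rwa [sup_eq_right.mpr (dg_mono T0 her)] at h2
    have i8 : r - e' ≤ h (dg T0 r) (dg T0 e' ⊔ (V ⊔ (dg t 1 ⊔ b))) := by
      refine hfull.trans (le_of_eq ?_)
      congr 1
      ac_rfl
    have i9 : h (dg (p1.qs T0) r) X = h (dg (p1.qs T0) e') X + h (dg (p1.qs T0) r) (dg (p1.qs T0) e' ⊔ X) := by
      have h2 := h_chain (dg (p1.qs T0) e') (dg (p1.qs T0) r) X
      rwa [sup_eq_right.mpr (dg_mono (p1.qs T0) her)] at h2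
    have i10 : h (dg (p1.qs T0) e') X ≤ h (dg T0 e') (V ⊔ (dg t 1 ⊔ b)) := by
      have h2 := hcmp (two VA) p2 t1
      rwa [ecR, eF, ← eT, cb] at h2
    have i11 : dg (p1.qs T0) e' ⊔ X = p2.map V ⊔ p1.map (b ⊔ (dg t 1 ⊔ dg T0 e')) := by
      rw [hX, p1.map_sup b, p1.map_sup (dg t 1), ← dt1, p1.qs_dg T0]
      ac_rfl
    rw [i11] at i9
    linarith
  refine m1_qs (p1.qs α) (p1.qs β0 + p1.qs β1 * t1) (p1.qs T0) (p2.qs α) (p2.qs β0 + p2.qs β1 * t1)
    (p1.map (b ⊔ (dg t 1 ⊔ dg T0 e'))) (p1.map V) (p2.map V) r e' ρ hρ he hr ?_ ?_ ?_ ?_ ?_ ?_ ?_ fu2 ?_ ?_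
  · have h2 := (Id (two VA) r).sub_mem z2 z1
    have e1 : p1.qs Z0 - (p2.qs β0 + p2.qs β1 * t1 + p1.qs T0 * p2.qs α) -
        (p1.qs Z0 - (p1.qs β0 + p1.qs β1 * t1 + p1.qs T0 * p1.qs α)) =
        p1.qs β0 + p1.qs β1 * t1 + p1.qs T0 * p1.qs α - (p2.qs β0 + p2.qs β1 * t1 + p1.qs T0 * p2.qs α) := by
      ring
    rwa [e1] at h2
  · rw [Pj.qs_dg]
    exact p1.map_mono (le_sup_right.trans le_sup_right)
  · rw [Pj.qs_dg]
    exact p1.map_mono hα
  · refine dg_add_le' _ _ hr ?_ (dg_mul_le' _ _ hr ?_ ?_)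
    · rw [Pj.qs_dg]
      exact (p1.map_mono h0).trans le_sup_left
    · rw [Pj.qs_dg]
      exact (p1.map_mono h1).trans le_sup_left
    · refine (dg_mono t1 hr).trans ?_
      rw [dt1]
      exact (p1.map_mono (le_sup_left.trans le_sup_right)).trans le_sup_right
  · rw [Pj.qs_dg]
    exact p2.map_mono hα
  · refine dg_add_le' _ _ hr ?_ (dg_mul_le' _ _ hr ?_ ?_)
    · rw [Pj.qs_dg]
      exact (p2.map_mono h0).trans le_sup_left
    · rw [Pj.qs_dg]
      exact (p2.map_mono h1).trans le_sup_left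
    · refine (dg_mono t1 hr).trans ?_
      rw [dt1]
      exact (p1.map_mono (le_sup_left.trans le_sup_right)).trans le_sup_right
  · rw [Pj.qs_dg, ← Pj.map_sup, Pj.h_map]
    refine hfull.trans (le_of_eq ?_)
    congr 1
    ac_rfl
  · rw [dz r le_rfl, Pj.qs_dg, ← Pj.map_sup, ← Pj.map_sup]
    apply I_zero_of_le_left
    refine p1.map_mono (hVp.trans ?_)
    refine sup_le (sup_le (le_sup_left) ?_) ?_
    · exact (le_sup_left.trans le_sup_right).trans le_sup_right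
    · exact le_sup_left.trans le_sup_right
  · intro E hE v' hv1 hv2
    rw [dz r le_rfl, dz v' hv2, Pj.qs_dg, ← Pj.map_sup, ← Pj.map_sup]
    have h2 := huns v' (he.trans hv1) hv2 ⟨two VA, p1, E, hE⟩
    refine le_trans (h_anti ?_) h2
    refine restL_mono E hE (p1.map_mono ?_)
    refine sup_le le_sup_left (sup_le ?_ (hq.trans ?_))
    · exact le_sup_left.trans le_sup_right
    · refine sup_le ?_ ?_
      · exact ((le_sup_left.trans le_sup_right).trans le_sup_right).trans le_sup_right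
      · exact (le_sup_left.trans le_sup_right).trans le_sup_right

end

end Pool.Agent.Helper54.NB
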