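import Pool.Agent.Helper54.NB.Tlt

/-! LEMMA NB: the two inductions and the theorem. -/

set_option autoImplicit false

namespace Pool.Agent.Helper54.NB

open Finset Filter Topology Pool.Agent.Helper69.RK Pool.Agent.Helper31.EC Pool.Agent.Helper82.TP
open Pool.Agent.Helper46.LIN Pool.Agent.Helper25.EC Pool.Agent.Helper62.UR
open Pool.Agent.Helper57.TA (sc)
open Pool.Agent.Helper8.PLK (lit_desc round_vw exhaust)

noncomputable section

open Sp QS

/-- `A` is a function of `B` on some event -/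
def Goal {S : Sp} (A B : S.L) : Prop :=
  ∃ (E : ∀ k, (S.F k).Ω → Prop) (hE : 0 < ul (S.pr E)), restL E hE A ≤ restL E hE B

theorem Goal.of_le {S : Sp} {A B : S.L} (h0 : A ≤ B) : Goal A B :=
  ⟨fun _ _ => True, by rw [ul_pr_typ _ Typ_true]; exact one_pos, restL_mono _ _ h0⟩

theorem Goal.nest {S : Sp} {A B : S.L} (E : ∀ k, (S.F k).Ω → Prop) (hE : 0 < ul (S.pr E))
    (h0 : Goal (restL E hE A) (restL E hE B)) : Goal A B := by
  obtain ⟨E', hE', h1⟩ := h0
  refine ⟨EE E E', rr_pos E E' hE hE', ?_⟩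
  rw [← h_eq_zero_iff, ← rr_h E E' hE hE']
  exact h_zero h1

section

variable {S : Sp} {H : NBD S} {w1 w ρ σ : ℝ} {Sc : Set ℝ}

/-- the step, from states to tilts -/
theorem Sta.step (hPL : PLKr) (hH : NBH H w1 w ρ σ Sc) {s π r : ℝ} {α : QS S} (st : Sta H α π s) (hs : s ∈ Sc)
    (h0 : 0 ≤ π) (hπ : w1 * s ≤ r - π) (hr : r ≤ w * s) {e e2 η : ℝ} (he : 0 < e) (he2 : e < e2) (hη : 0 < η)
    (hη' : e2 + η ≤ r)
    (hpos : 0 < h (dg H.F (e - π) ⊔ dg (H.v - α * H.F) e)
      (dg H.R (r - π) ⊔ dg (H.z - α * H.R) r ⊔ dg H.t 1 ⊔ H.b)) :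
    ∃ (E1 : ∀ k, (S.F k).Ω → Prop) (hE1 : 0 < ul (S.pr E1)) (g : QS (S.rest E1)) (u : Vw (S.rest E1)),
      Tlt (H.rest E1 hE1) g r (e2 - π + η) u := by
  obtain ⟨fA, fB, E1, hE1, u, lfA, lfB, heq, hfu⟩ := Helper54.NB.step hPL hH hs st.lA st.lB st.c0 st.cl h0 hπ hr he
    he2 hη hη' hpos
  have lA : Lit H.VA (α + sc S π * fA) := st.lA.add ((Helper32.BF2.lit_sc H.VA π).mul lfA)
  have lB : Lit H.VB (α + sc S π * fB) := st.lB.add ((Helper32.BF2.lit_sc H.VB π).mul lfB)
  have heq' : QS.rest E1 hE1 (α + sc S π * fA) = QS.rest E1 hE1 (α + sc S π * fB) := by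
    rw [map_add, map_add, map_mul, map_mul, heq]
  refine ⟨E1, hE1, QS.rest E1 hE1 (α + sc S π * fB), u, ?_, lit_rest E1 hE1 lB, ?_, ?_⟩
  · rw [← heq']
    exact lit_rest E1 hE1 lA
  · exact hH.agr E1 hE1 _ _ lA lB heq'
  · intro a' ha1 ha2
    have h1 := hfu a' ha1 ha2
    rw [rest_R, rest_z, rest_q, ← map_mul, ← map_sub, QS.rest_dg, QS.rest_dg, QS.rest_dg, ← restL_sup, ← restL_sup]
    exact h1

/-- the zero tilt -/
theorem Sta.zero (hH : NBH H w1 w ρ σ Sc) (s : ℝ) : Sta H 0 0 s where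
  lA := by rw [← sub_self H.x]; exact hH.lx.sub hH.lx
  lB := by rw [← sub_self H.t]; exact hH.lt.sub hH.lt
  c0 := dg_of_mem_Id (Id S 1).zero_mem le_rfl le_rfl
  cl := mem_Id_nonpos le_rfl

end

/-- the `R`-part -/
theorem part_R (hPL : PLKr) {w1 w ρ σ : ℝ} {Sc : Set ℝ} {sb g : ℝ} (hsb : sb ∈ Sc) (hg : 0 < g) (hgs : g < sb)
    (n : ℕ) : ∀ (S : Sp) (H : NBD S) (_ : NBH H w1 w ρ σ Sc) (α : QS S) (π s : ℝ) (_ : Sta H α π s) (_ : s ∈ Sc)
      (_ : 0 ≤ π) (_ : s ≤ sb) (_ : w1 * sb + π ≤ w * s) (_ : 1 - π ≤ n * ((sb - g) / 8)),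
      Goal (dg H.F ((w1 - 1) * sb + g)) (H.b ⊔ dg H.t 1 ⊔ H.K sb) := by
  induction n with
  | zero =>
    intro S H hH α π s st hs h0 hsb' hw hn
    exfalso
    have h1 := hH.ws_le hs
    have h2 : 0 < w1 * sb := mul_pos (by linarith [hH.hw1]) (hH.pos sb hsb)
    rw [Nat.cast_zero, zero_mul] at hn
    linarith
  | succ n ih =>
    intro S H hH α π s st hs h0 hsb' hw hn
    have hsb0 := hH.pos sb hsb
    have hw1 := hH.hw1
    have hww := hH.hw
    have hwp := hH.wpos
    set D := sb - g with hD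
    have hD0 : 0 < D := by linarith
    set eR := (w1 - 1) * sb + g with heR
    have eRD : eR = w1 * sb - D := by rw [heR, hD]; ring
    have heR0 : 0 < eR := by
      have : 0 < (w1 - 1) * sb := mul_pos (by linarith) hsb0
      linarith
    set r := w1 * sb + π with hr
    have hws := hH.ws_le hs
    by_cases hpos : 0 < h (dg H.F (eR + π - π) ⊔ dg (H.v - α * H.F) (eR + π))
      (dg H.R (r - π) ⊔ dg (H.z - α * H.R) r ⊔ dg H.t 1 ⊔ H.b)
    · obtain ⟨E1, hE1, g1, u, ht⟩ := st.step hPL hH hs h0 (r := r) (e := eR + π) (e2 := eR + D / 4 + π) (η := D / 4)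
        (by rw [hr, add_sub_cancel_right]; exact mul_le_mul_of_nonneg_left hsb' (by linarith)) hw (by linarith)
        (by linarith) (by linarith) (by linarith) hpos
      have hH1 : NBH (H.rest E1 hE1) w1 w ρ σ Sc := hH.rest E1 hE1
      have ea : eR + D / 4 + π - π + D / 4 = w1 * sb - D / 2 := by rw [eRD]; ring
      rw [ea] at ht
      -- no window between
      have hnw : r / w ≤ (w1 * sb - D / 2) / w1 := by
        by_contra hc
        push Not at hc
        obtain ⟨c, hc1, hc2, hc3⟩ := hH.dense _ _ (div_pos (by linarith) (by linarith)) hc (by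
          rw [div_le_iff₀ hwp]
          exact hw.trans (by rw [mul_comm w]; exact mul_le_mul_of_nonneg_right (hH.le s hs) hwp.le))
        refine ht.absurd hH1 (by linarith) hc1 ?_ ?_
        · rw [lt_div_iff₀ hwp] at hc3
          linarith
        · rw [div_lt_iff₀ (by linarith)] at hc2
          linarith
      have hnw' : r * w1 ≤ (w1 * sb - D / 2) * w := by
        rw [div_le_div_iff₀ hwp (by linarith)] at hnw
        exact hnw
      -- the next window
      have hlt : (r + D / 8) / w < sb - D / 8 / w1 := by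
        have hw10 : 0 < w1 := by linarith
        rw [div_lt_iff₀ hwp, sub_mul]
        have k1 : D / 8 / w1 * w = D / 8 * (w / w1) := by ring
        have k2 : r ≤ (sb - D / 2 / w1) * w := by
          have k3 : r * w1 ≤ ((sb - D / 2 / w1) * w) * w1 := by
            have k4 : ((sb - D / 2 / w1) * w) * w1 = (w1 * sb - D / 2) * w := by
              field_simp
            rw [k4]; exact hnw'
          exact le_of_mul_le_mul_right k3 hw10
        have k5 : 1 ≤ w / w1 := by rw [le_div_iff₀ hw10]; linarith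
        have k6 : D / 2 / w1 * w = 4 * (D / 8 * (w / w1)) := by ring
        have k7 : D / 8 ≤ D / 8 * (w / w1) := by
          have : 0 < D / 8 := by linarith
          nlinarith
        rw [k1]
        rw [sub_mul, k6] at k2
        linarith
      obtain ⟨sn, hsn, hsn1, hsn2⟩ := hH.dense _ _ (div_pos (by linarith) hwp) hlt (by
        have : 0 < D / 8 / w1 := div_pos (by linarith) (by linarith)
        linarith [hH.le sb hsb])
      have hsn1' : r + D / 8 < w * sn := by
        rw [div_lt_iff₀ hwp] at hsn1; linarith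
      have hsn2' : w1 * sn ≤ w1 * sb - D / 8 := by
        have hw10 : 0 < w1 := by linarith
        have k1 := mul_lt_mul_of_pos_left hsn2 hw10
        have k2 : w1 * (sb - D / 8 / w1) = w1 * sb - D / 8 := by field_simp
        linarith
      obtain ⟨E2, hE2, st2⟩ := ht.next hH1 hsn (r2 := r) (a' := max (w1 * sb - D / 2) (w1 * sn)) (δ := π + D / 8) le_rfl
        (by linarith) (le_max_left _ _) (le_max_right _ _) (by
          have : max (w1 * sb - D / 2) (w1 * sn) ≤ w1 * sb - D / 8 := max_le (by linarith) hsn2'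
          linarith)
      have k1 := ih _ _ (hH1.rest E2 hE2) _ _ _ st2 hsn (by linarith) (by
        have : w1 * sn < w1 * sb := by linarith
        exact (lt_of_mul_lt_mul_left this (by linarith)).le) (by linarith) (by
          push_cast at hn
          linarith)
      apply Goal.nest E1 hE1
      apply Goal.nest E2 hE2
      have e1 : dg ((H.rest E1 hE1).rest E2 hE2).F eR = restL E2 hE2 (restL E1 hE1 (dg H.F eR)) := by
        show dg (QS.rest E2 hE2 (QS.rest E1 hE1 H.F)) eR = _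
        rw [QS.rest_dg, QS.rest_dg]
      have e2 : ((H.rest E1 hE1).rest E2 hE2).b ⊔ dg ((H.rest E1 hE1).rest E2 hE2).t 1 ⊔
          ((H.rest E1 hE1).rest E2 hE2).K sb = restL E2 hE2 (restL E1 hE1 (H.b ⊔ dg H.t 1 ⊔ H.K sb)) := by
        rw [rest_b, rest_b]
        show _ ⊔ dg (QS.rest E2 hE2 (QS.rest E1 hE1 H.t)) 1 ⊔ restL E2 hE2 (restL E1 hE1 (H.K sb)) = _
        rw [QS.rest_dg, QS.rest_dg, restL_sup, restL_sup, restL_sup, restL_sup]
      rw [e1, e2] at k1
      exact k1
    · apply Goal.of_le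
      have h1 := h_le_zero_iff.mp (not_lt.mp hpos)
      rw [add_sub_cancel_right, hr, add_sub_cancel_right, ← hr] at h1
      refine (le_sup_left.trans h1).trans ?_
      have hq : H.q ≤ H.b ⊔ dg H.t 1 ⊔ H.K sb :=
        NBH.q_le.trans (sup_le (le_sup_right.trans le_sup_left) (le_sup_left.trans le_sup_left))
      have hR : dg H.R (w1 * sb) ≤ H.b ⊔ dg H.t 1 ⊔ H.K sb :=
        (hH.frR sb hsb).trans (sup_le le_sup_right hq)
      refine sup_le (sup_le (sup_le hR ?_) (le_sup_right.trans le_sup_left)) (le_sup_left.trans le_sup_left)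
      have h2 := hH.U1 (r := r) hs st.c0 st.cl (by
        have : 0 < w1 * sb := mul_pos (by linarith) hsb0
        linarith) hw h0
      rw [hr, add_sub_cancel_right, ← hr] at h2
      exact h2.trans (sup_le (sup_le ((hH.mono s hs sb hsb hsb').trans le_sup_right) hq) hR)

/-- the `z`-part -/
theorem part_Z (hPL : PLKr) {w1 w ρ σ : ℝ} {Sc : Set ℝ} {sb g : ℝ} (hsb : sb ∈ Sc) (hg : 0 < g) (hgs : g < sb)
    (n : ℕ) : ∀ (S : Sp) (H : NBD S) (_ : NBH H w1 w ρ σ Sc) (α : QS S) (π : ℝ) (_ : Sta H α π sb)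
      (_ : 0 ≤ π) (_ : π ≤ (w - w1) * sb) (_ : 1 - π ≤ n * ((sb - g) / 2)),
      Goal (dg (H.v - H.c sb * H.F) ((w - 1) * sb + g)) (H.b ⊔ dg H.t 1 ⊔ dg H.R 1 ⊔ H.K sb) := by
  induction n with
  | zero =>
    intro S H hH α π st h0 hπ hn
    exfalso
    have h1 := hH.ws_le hsb
    have h2 : 0 < w1 * sb := mul_pos (by linarith [hH.hw1]) (hH.pos sb hsb)
    rw [Nat.cast_zero, zero_mul] at hn
    rw [sub_mul] at hπ
    linarith
  | succ n ih =>
    intro S H hH α π st h0 hπ hn
    have hsb0 := hH.pos sb hsb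
    have hw1 := hH.hw1
    have hww := hH.hw
    have hwp := hH.wpos
    rw [sub_mul] at hπ
    set D := sb - g with hD
    have hD0 : 0 < D := by linarith
    have hww1 := hH.w1s_le hsb
    have hw1s : 0 < w1 * sb := mul_pos (by linarith) hsb0
    set e := (w - 1) * sb + g with he
    have eD : e = w * sb - D := by rw [he, hD]; ring
    have he0 : 0 < e := by
      have : 0 < (w - 1) * sb := mul_pos (by linarith) hsb0
      linarith
    have hws := hH.ws_le hsb
    by_cases hpos : 0 < h (dg H.F (e - π) ⊔ dg (H.v - α * H.F) e)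
      (dg H.R (w * sb - π) ⊔ dg (H.z - α * H.R) (w * sb) ⊔ dg H.t 1 ⊔ H.b)
    · obtain ⟨E1, hE1, g1, u, ht⟩ := st.step hPL hH hsb h0 (r := w * sb) (e := e) (e2 := e + D / 4) (η := D / 4)
        (by linarith) le_rfl he0 (by linarith) (by linarith) (by linarith) hpos
      have hH1 : NBH (H.rest E1 hE1) w1 w ρ σ Sc := hH.rest E1 hE1
      have ea : e + D / 4 - π + D / 4 = w * sb - D / 2 - π := by rw [eD]; ring
      rw [ea] at ht
      have hw10 : 0 < w1 := by linarith
      have hge : w1 * sb ≤ w * sb - D / 2 - π := by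
        by_contra hc
        push Not at hc
        have hlt : max ((w * sb - D / 2 - π) / w1) (sb / 2) < sb := by
          refine max_lt ?_ (by linarith)
          rw [div_lt_iff₀ hw10]
          linarith
        obtain ⟨c, hc1, hc2, hc3⟩ := hH.dense _ _ (lt_max_of_lt_right (by linarith)) hlt (hH.le sb hsb)
        refine ht.absurd hH1 hws hc1 (mul_lt_mul_of_pos_left hc3 hwp) ?_
        have k1 := (le_max_left _ _).trans_lt hc2
        rw [div_lt_iff₀ hw10] at k1
        linarith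
      obtain ⟨E2, hE2, st2⟩ := ht.next hH1 hsb (r2 := w * sb) (a' := w * sb - D / 2 - π) (δ := π + D / 2) le_rfl
        le_rfl le_rfl hge (by linarith)
      have k1 := ih _ _ (hH1.rest E2 hE2) _ _ st2 (by linarith) (by rw [sub_mul]; linarith) (by
          push_cast at hn
          linarith)
      apply Goal.nest E1 hE1
      apply Goal.nest E2 hE2
      have e1 : dg (((H.rest E1 hE1).rest E2 hE2).v - ((H.rest E1 hE1).rest E2 hE2).c sb *
          ((H.rest E1 hE1).rest E2 hE2).F) e = restL E2 hE2 (restL E1 hE1 (dg (H.v - H.c sb * H.F) e)) := by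
        show dg (QS.rest E2 hE2 (QS.rest E1 hE1 H.v) - QS.rest E2 hE2 (QS.rest E1 hE1 (H.c sb)) *
          QS.rest E2 hE2 (QS.rest E1 hE1 H.F)) e = _
        rw [← map_mul, ← map_sub, ← map_mul, ← map_sub, QS.rest_dg, QS.rest_dg]
      have e2 : ((H.rest E1 hE1).rest E2 hE2).b ⊔ dg ((H.rest E1 hE1).rest E2 hE2).t 1 ⊔
          dg ((H.rest E1 hE1).rest E2 hE2).R 1 ⊔ ((H.rest E1 hE1).rest E2 hE2).K sb =
          restL E2 hE2 (restL E1 hE1 (H.b ⊔ dg H.t 1 ⊔ dg H.R 1 ⊔ H.K sb)) := by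
        rw [rest_b, rest_b, rest_R, rest_R]
        show _ ⊔ dg (QS.rest E2 hE2 (QS.rest E1 hE1 H.t)) 1 ⊔ _ ⊔ restL E2 hE2 (restL E1 hE1 (H.K sb)) = _
        rw [QS.rest_dg, QS.rest_dg, QS.rest_dg, QS.rest_dg, restL_sup, restL_sup, restL_sup, restL_sup, restL_sup,
          restL_sup]
      rw [e1, e2] at k1
      exact k1
    · apply Goal.of_le
      have h1 := h_le_zero_iff.mp (not_lt.mp hpos)
      have hq : H.q ≤ H.b ⊔ dg H.t 1 ⊔ dg H.R 1 ⊔ H.K sb :=
        NBH.q_le.trans (sup_le ((le_sup_right.trans le_sup_left).trans le_sup_left)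
          ((le_sup_left.trans le_sup_left).trans le_sup_left))
      have hR : dg H.R 1 ≤ H.b ⊔ dg H.t 1 ⊔ dg H.R 1 ⊔ H.K sb := le_sup_right.trans le_sup_left
      have hz := hH.U1 (r := w * sb) hsb st.c0 st.cl (by linarith) le_rfl h0
      have h2 : dg H.F (e - π) ⊔ dg (H.v - α * H.F) e ≤ H.b ⊔ dg H.t 1 ⊔ dg H.R 1 ⊔ H.K sb := by
        refine h1.trans (sup_le (sup_le (sup_le ((dg_mono H.R (by linarith)).trans hR) (hz.trans ?_))
          ((le_sup_right.trans le_sup_left).trans le_sup_left)) ((le_sup_left.trans le_sup_left).trans le_sup_left))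
        exact sup_le (sup_le le_sup_right hq) ((dg_mono H.R (by linarith)).trans hR)
      have e1 : H.v - H.c sb * H.F = (H.v - α * H.F) + H.F * (α - H.c sb) := by ring
      rw [e1]
      have he1 : e ≤ 1 := by linarith
      refine dg_add_le' _ _ he1 (le_sup_right.trans h2) ?_
      have h3 := Helper82.TP.dg_mul_small H.F (α - H.c sb) (a := π) (b := e - π) (by linarith) (by linarith)
        (by linarith) st.cl
      rw [add_sub_cancel] at h3
      refine h3.trans (sup_le (le_sup_left.trans h2) (dg_sub_le' _ _ he1 ?_ ?_))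
      · rw [le_bot_iff.mp ((dg_mono α he1).trans st.c0.le)]
        exact bot_le
      · exact ((dg_mono _ he1).trans (hH.cK sb hsb)).trans le_sup_right

/-- equal weights: the velocity of `z` -/
theorem part_W (hPL : PLKr) {S : Sp} {H : NBD S} {w1 w ρ σ : ℝ} {Sc : Set ℝ} (hH : NBH H w1 w ρ σ Sc) (hww : w = w1)
    {sb g : ℝ} (hsb : sb ∈ Sc) (hg : 0 < g) (hgs : g < sb) :
    dg H.v ((w - 1) * sb + g) ≤ H.b ⊔ dg H.t 1 ⊔ H.K sb := by
  have hsb0 := hH.pos sb hsb
  have hw1 := hH.hw1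
  have hwp := hH.wpos
  set D := sb - g with hD
  have hD0 : 0 < D := by linarith
  set e := (w - 1) * sb + g with he
  have eD : e = w * sb - D := by rw [he, hD]; ring
  have he0 : 0 < e := by
    have : 0 < (w - 1) * sb := mul_pos (by linarith) hsb0
    linarith
  have hws := hH.ws_le hsb
  by_cases hpos : 0 < h (dg H.F (e - 0) ⊔ dg (H.v - 0 * H.F) e)
    (dg H.R (w * sb - 0) ⊔ dg (H.z - 0 * H.R) (w * sb) ⊔ dg H.t 1 ⊔ H.b)
  · exfalso
    obtain ⟨E1, hE1, g1, u, ht⟩ := (Sta.zero hH sb).step hPL hH hsb le_rfl (r := w * sb) (e := e) (e2 := e + D / 4)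
      (η := D / 4) (by rw [hww, sub_zero]) le_rfl he0 (by linarith) (by linarith) (by linarith) hpos
    have hH1 : NBH (H.rest E1 hE1) w1 w ρ σ Sc := hH.rest E1 hE1
    have ea : e + D / 4 - 0 + D / 4 = w * sb - D / 2 := by rw [eD]; ring
    rw [ea] at ht
    have hlt : max ((w * sb - D / 2) / w) (sb / 2) < sb := by
      refine max_lt ?_ (by linarith)
      rw [div_lt_iff₀ hwp]
      linarith
    obtain ⟨c, hc1, hc2, hc3⟩ := hH.dense _ _ (lt_max_of_lt_right (by linarith)) hlt (hH.le sb hsb)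
    refine ht.absurd hH1 hws hc1 (mul_lt_mul_of_pos_left hc3 hwp) ?_
    have k1 := (le_max_left _ _).trans_lt hc2
    rw [div_lt_iff₀ hwp] at k1
    rw [← hww]
    linarith
  · have h1 := h_le_zero_iff.mp (not_lt.mp hpos)
    simp only [zero_mul, sub_zero] at h1
    refine (le_sup_right.trans h1).trans ?_
    have hq : H.q ≤ H.b ⊔ dg H.t 1 ⊔ H.K sb :=
      NBH.q_le.trans (sup_le (le_sup_right.trans le_sup_left) (le_sup_left.trans le_sup_left))
    have hR : dg H.R (w * sb) ≤ H.b ⊔ dg H.t 1 ⊔ H.K sb := by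
      rw [hww]
      exact (hH.frR sb hsb).trans (sup_le le_sup_right hq)
    have hz := hH.U1 (r := w * sb) hsb (Sta.zero hH sb).c0 (Sta.zero hH sb).cl (by positivity) le_rfl le_rfl
    simp only [zero_mul, sub_zero] at hz
    exact sup_le (sup_le (sup_le hR (hz.trans (sup_le (sup_le le_sup_right hq) hR)))
      (le_sup_right.trans le_sup_left)) (le_sup_left.trans le_sup_left)

/-- **LEMMA NB** -/
theorem st_nb (hPL : PLKr) : ST_NB := by
  intro S H w1 w ρ σ Sc hH s hs g hg hgs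
  have hD : 0 < s - g := by linarith
  refine ⟨?_, ?_, fun hww => part_W hPL hH hww hs hg hgs⟩
  · apply exhaust
    intro E hE
    have hH1 := hH.rest E hE
    obtain ⟨n, hn⟩ := exists_nat_ge (1 / ((s - g) / 8))
    rw [div_le_iff₀ (by linarith)] at hn
    obtain ⟨E', hE', h1⟩ := part_R hPL hs hg hgs n _ _ hH1 0 0 s (Sta.zero hH1 s) hs le_rfl le_rfl (by
      rw [add_zero]; exact hH.w1s_le hs) (by rw [sub_zero]; exact hn)
    refine ⟨E', hE', ?_⟩
    have e1 : dg (H.rest E hE).F ((w1 - 1) * s + g) = restL E hE (dg H.F ((w1 - 1) * s + g)) := QS.rest_dg _ _ _ _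
    have e2 : (H.rest E hE).b ⊔ dg (H.rest E hE).t 1 ⊔ (H.rest E hE).K s =
        restL E hE (H.b ⊔ dg H.t 1 ⊔ H.K s) := by
      rw [rest_b]
      show _ ⊔ dg (QS.rest E hE H.t) 1 ⊔ restL E hE (H.K s) = _
      rw [QS.rest_dg, restL_sup, restL_sup]
    rw [e1, e2] at h1
    exact h1
  · apply exhaust
    intro E hE
    have hH1 := hH.rest E hE
    obtain ⟨n, hn⟩ := exists_nat_ge (1 / ((s - g) / 2))
    rw [div_le_iff₀ (by linarith)] at hn
    have hww := hH.w1s_le hs
    obtain ⟨E', hE', h1⟩ := part_Z hPL hs hg hgs n _ _ hH1 0 0 (Sta.zero hH1 s) le_rfl (by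
      rw [sub_mul]; linarith) (by rw [sub_zero]; exact hn)
    refine ⟨E', hE', ?_⟩
    have e1 : dg ((H.rest E hE).v - (H.rest E hE).c s * (H.rest E hE).F) ((w - 1) * s + g) =
        restL E hE (dg (H.v - H.c s * H.F) ((w - 1) * s + g)) := by
      show dg (QS.rest E hE H.v - QS.rest E hE (H.c s) * QS.rest E hE H.F) _ = _
      rw [← map_mul, ← map_sub, QS.rest_dg]
    have e2 : (H.rest E hE).b ⊔ dg (H.rest E hE).t 1 ⊔ dg (H.rest E hE).R 1 ⊔ (H.rest E hE).K s =
        restL E hE (H.b ⊔ dg H.t 1 ⊔ dg H.R 1 ⊔ H.K s) := by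
      rw [rest_b, rest_R]
      show _ ⊔ dg (QS.rest E hE H.t) 1 ⊔ _ ⊔ restL E hE (H.K s) = _
      rw [QS.rest_dg, QS.rest_dg, restL_sup, restL_sup, restL_sup]
    rw [e1, e2] at h1
    exact h1

end

end Pool.Agent.Helper54.NB
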