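import Pool.Agent.Helper46.LIN.Nest
import Pool.Agent.Helper46.LIN.Lift
import Pool.Agent.Helper24.T3.Qn
import Pool.Agent.Helper82.TP.Base

/-! Views: events of positive probability of extensions. Composition, restriction to events of the space below,
persistence of facts. -/

set_option autoImplicit false

namespace Pool.Agent.Helper54.NB

open Finset Filter Topology Pool.Agent.Helper69.RK Pool.Agent.Helper31.EC Pool.Agent.Helper82.TP
open Pool.Agent.Helper46.LIN

noncomputable section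

open Sp QS

/-- an event of positive probability of an extension -/
structure Vw (S : Sp) where
  W : Sp
  p : Pj W S
  E : ∀ k, (W.F k).Ω → Prop
  hE : 0 < ul (W.pr E)

namespace Vw

variable {S : Sp} (v : Vw S)

/-- the space of the view -/
abbrev D : Sp := v.W.rest v.E

/-- pullback of informations -/
def up (x : S.L) : v.D.L := restL v.E v.hE (v.p.map x)

/-- pullback of functions -/
def uq : QS S →+* QS v.D := (QS.rest v.E v.hE).comp v.p.qs

theorem uq_apply (f : QS S) : v.uq f = QS.rest v.E v.hE (v.p.qs f) := rfl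

theorem up_mono {x y : S.L} (h : x ≤ y) : v.up x ≤ v.up y := restL_mono _ _ (v.p.map_mono h)

theorem up_sup (x y : S.L) : v.up (x ⊔ y) = v.up x ⊔ v.up y := by
  unfold up
  rw [v.p.map_sup, restL_sup]

theorem up_bot : v.up ⊥ = ⊥ := by
  unfold up
  rw [v.p.map_bot, restL_bot]

theorem uq_dg (f : QS S) (r : ℝ) : dg (v.uq f) r = v.up (dg f r) := by
  rw [uq_apply, QS.rest_dg, Pj.qs_dg]
  rfl

theorem uq_mem {f : QS S} {r : ℝ} (hf : f ∈ Id S r) : v.uq f ∈ Id v.D r :=
  rest_mem_Id _ v.hE (Pj_mem_Id v.p hf)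

theorem up_I {x y z : S.L} (h0 : I x y z = 0) : I (v.up x) (v.up y) (v.up z) = 0 := by
  apply I_rest_zero
  rw [v.p.I_map]
  exact h0

/-- the whole space -/
def one (S : Sp) : Vw S where
  W := S
  p := Pj.id S
  E := fun _ _ => True
  hE := by rw [ul_pr_typ _ Typ_true]; exact one_pos

/-- an event -/
def ev (E : ∀ k, (S.F k).Ω → Prop) (hE : 0 < ul (S.pr E)) : Vw S where
  W := S
  p := Pj.id S
  E := E
  hE := hE

theorem ev_up (E : ∀ k, (S.F k).Ω → Prop) (hE : 0 < ul (S.pr E)) (x : S.L) : (ev E hE).up x = restL E hE x := by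
  unfold up ev
  rw [Pj.id_map]

theorem ev_uq (E : ∀ k, (S.F k).Ω → Prop) (hE : 0 < ul (S.pr E)) (f : QS S) : (ev E hE).uq f = QS.rest E hE f := by
  rw [uq_apply]
  unfold ev
  rw [Pj.id_qs]

/-- an extension -/
def ext {T : Sp} (q : Pj T S) : Vw S where
  W := T
  p := q
  E := fun _ _ => True
  hE := by rw [ul_pr_typ _ Typ_true]; exact one_pos

/-- entropies in an extension -/
theorem h_ext {T : Sp} (q : Pj T S) (x y : S.L) : h ((ext q).up x) ((ext q).up y) = h x y := by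
  have h1 := h_restL_typ (S := T) (fun _ _ => True) Typ_true (q.map x) (q.map y)
  rw [q.h_map] at h1
  exact h1

/-- composition of views -/
def comp (v : Vw S) (u : Vw v.D) : Vw S where
  W := lift u.p
  p := (liftP u.p).comp v.p
  E := lE u.p u.E
  hE := lE_pos u.p u.E v.hE u.hE

/-- the comparison map of the composition -/
def cI (v : Vw S) (u : Vw v.D) : Pj u.D (v.comp u).D := lI u.p u.E

theorem c_up (v : Vw S) (u : Vw v.D) (x : S.L) : (v.cI u).map ((v.comp u).up x) = u.up (v.up x) := by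
  have h1 := l_map (S := v.W) u.p u.E v.hE u.hE (v.p.map x)
  have h2 : ((liftP u.p).comp v.p).map x = (liftP u.p).map (v.p.map x) := Pj.comp_map _ _ x
  show (lI u.p u.E).map (restL (lE u.p u.E) _ (((liftP u.p).comp v.p).map x)) = _
  rw [h2]
  exact h1

theorem c_uq (v : Vw S) (u : Vw v.D) (f : QS S) : (v.cI u).qs ((v.comp u).uq f) = u.uq (v.uq f) := by
  have h1 := l_qs (S := v.W) u.p u.E v.hE u.hE (v.p.qs f)
  have h2 : ((liftP u.p).comp v.p).qs f = (liftP u.p).qs (v.p.qs f) := Pj.comp_qs _ _ f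
  show (lI u.p u.E).qs (QS.rest (lE u.p u.E) (lE_pos u.p u.E v.hE u.hE) (((liftP u.p).comp v.p).qs f)) = _
  rw [h2]
  exact h1

theorem c_h (v : Vw S) (u : Vw v.D) (x y : S.L) :
    h ((v.comp u).up x) ((v.comp u).up y) = h (u.up (v.up x)) (u.up (v.up y)) := by
  rw [← c_up, ← c_up, Pj.h_map]

end Vw

/-- an upper bound on all events of all extensions -/
def Uq (S : Sp) (x y : S.L) (κ : ℝ) : Prop := ∀ v : Vw S, h (v.up x) (v.up y) ≤ κ

theorem Uq.up {S : Sp} {x y : S.L} {κ : ℝ} (hU : Uq S x y κ) (v : Vw S) : Uq v.D (v.up x) (v.up y) κ := by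
  intro u
  rw [← v.c_h u]
  exact hU _

theorem Uq.self {S : Sp} {x y : S.L} {κ : ℝ} (hU : Uq S x y κ) : h x y ≤ κ := by
  have h1 := hU (Vw.ext (Pj.id S))
  rwa [Vw.h_ext] at h1

theorem Uq.mono {S : Sp} {x x' y y' : S.L} {κ κ' : ℝ} (hU : Uq S x y κ) (hx : x' ≤ x) (hy : y ≤ y') (hk : κ ≤ κ') :
    Uq S x' y' κ' := fun v => ((h_mono (v.up_mono hx)).trans (h_anti (v.up_mono hy))).trans ((hU v).trans hk)

/-- maximal values persist -/
theorem Uq.max {S : Sp} {x y : S.L} {κ : ℝ} (hU : Uq S x y κ) (h0 : κ ≤ h x y) (v : Vw S) :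
    κ ≤ h (v.up x) (v.up y) := by
  have h1 : h (v.p.map x) (v.p.map y) = κ := by
    rw [v.p.h_map]
    exact le_antisymm hU.self h0
  apply le_of_eq
  symm
  exact Sp.h_rest_max v.E v.hE h1 (fun E' hE' => hU ⟨v.W, v.p, E', hE'⟩)

/-- digits: the trivial upper bound -/
theorem Uq.dg {S : Sp} (f : QS S) {r s : ℝ} (hrs : r ≤ s) {A : S.L} (hA : dg f r ≤ A) : Uq S (dg f s) A (s - r) := by
  intro v
  rw [← v.uq_dg]
  have h1 : QS.dg (v.uq f) r ≤ v.up A := by
    rw [v.uq_dg]; exact v.up_mono hA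
  exact (h_anti h1).trans (h_dg_dg _ hrs)

/-- fullness persists -/
theorem full_up {S : Sp} (f : QS S) {r s : ℝ} (hrs : r ≤ s) {A : S.L} (hA : dg f r ≤ A) (h0 : s - r ≤ h (QS.dg f s) A)
    (v : Vw S) : s - r ≤ h (QS.dg (v.uq f) s) (v.up A) := by
  rw [v.uq_dg]
  exact (Uq.dg f hrs hA).max h0 v

/-- fullness at lower levels -/
theorem full_low {S : Sp} (f : QS S) {r s u : ℝ} (hsu : s ≤ u) {A : S.L} (h0 : u - r ≤ h (dg f u) A) :
    s - r ≤ h (dg f s) A := by
  have h1 := h_triangle (dg f u) (dg f s) A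
  have h2 : h (dg f u) (dg f s ⊔ A) ≤ h (dg f u) (dg f s) := h_anti le_sup_left
  have h3 := h_dg_dg f hsu
  linarith

/-- fullness at higher starting levels -/
theorem full_high {S : Sp} (f : QS S) {r r' s : ℝ} (hr : r ≤ r') (hs : r' ≤ s) {A : S.L} (hA : dg f r ≤ A)
    (h0 : s - r ≤ h (dg f s) A) : s - r' ≤ h (dg f s) (A ⊔ dg f r') := by
  have h1 := h_chain (dg f r') (dg f s) A
  have h2 : dg f r' ⊔ dg f s = dg f s := sup_eq_right.mpr (dg_mono f hs)
  rw [h2] at h1
  have h3 : h (dg f r') A ≤ r' - r := (h_anti hA).trans (h_dg_dg f hr)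
  rw [sup_comm A]
  linarith

section nest

variable {S : Sp}

/-- entropies on nested events -/
theorem rr_h (E : ∀ k, (S.F k).Ω → Prop) (E' : ∀ k, ((S.rest E).F k).Ω → Prop) (hE : 0 < ul (S.pr E))
    (hE' : 0 < ul ((S.rest E).pr E')) (x y : S.L) :
    h (restL E' hE' (restL E hE x)) (restL E' hE' (restL E hE y)) =
      h (restL (EE E E') (rr_pos E E' hE hE') x) (restL (EE E E') (rr_pos E E' hE hE') y) := by
  induction x using Sp.cl_ind with | _ A
  induction y using Sp.cl_ind with | _ B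
  have e1 : h (restL E' hE' (restL E hE (cl A))) (restL E' hE' (restL E hE (cl B))) =
      ul (((S.rest E).rest E').rt A.1 B.1) := h_cl (restI E' (restI E A)) (restI E' (restI E B))
  have e2 : h (restL (EE E E') (rr_pos E E' hE hE') (cl A)) (restL (EE E E') (rr_pos E E' hE hE') (cl B)) =
      ul ((S.rest (EE E E')).rt A.1 B.1) := h_cl (restI (EE E E') A) (restI (EE E E') B)
  rw [e1, e2]
  apply ul_congr
  filter_upwards [rr_ev E E' hE hE'] with k hk
  exact congrArg (fun μ : (S.F k).Ω → ℝ =>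
    CH μ (Quotient.mk (A.1 k)) (Quotient.mk (B.1 k ⊓ (S.F k).Z)) / (S.F k).n) hk

theorem ev_congr {E E' : ∀ k, (S.F k).Ω → Prop} (h0 : E = E') (hE : 0 < ul (S.pr E)) (hE' : 0 < ul (S.pr E'))
    (x y : S.L) : h (restL E hE x) (restL E hE y) = h (restL E' hE' x) (restL E' hE' y) := by
  subst h0
  rfl

/-- a typical event of a view which comes from the space below -/
theorem desc (v : Vw S) (E1 : ∀ k, (S.F k).Ω → Prop) (ht : Typ (S := v.D) (fun k ω => E1 k (v.p.π k ω))) :
    ∃ (hE1 : 0 < ul (S.pr E1)) (u : Vw (S.rest E1)), ∀ x y : S.L,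
      h (v.up x) (v.up y) = h (u.up (restL E1 hE1 x)) (u.up (restL E1 hE1 y)) := by
  set A : ∀ k, (v.W.F k).Ω → Prop := fun k ω => E1 k (v.p.π k ω) with hA
  have h1 : ul ((v.W.rest v.E).pr A) = 1 := ul_pr_typ _ ht
  have h2 := Helper24.T3.ul_pr_and (S := v.W) v.E A
  rw [h1, mul_one] at h2
  have h3 := Helper24.T3.ul_pr_and (S := v.W) A v.E
  have h4 : (fun k ω => v.E k ω ∧ A k ω) = fun k ω => A k ω ∧ v.E k ω := by
    funext k ω
    exact propext and_comm
  rw [h4, ← h3] at h2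
  have h5 : 0 < ul (v.W.pr A) * ul ((v.W.rest A).pr v.E) := by rw [← h2]; exact v.hE
  have n1 : 0 ≤ ul (v.W.pr A) := const_le_ul (UB_pr A) (Eventually.of_forall fun k => pr_nonneg A k)
  have n2 : 0 ≤ ul ((v.W.rest A).pr v.E) :=
    const_le_ul (UB_pr (S := v.W.rest A) v.E) (Eventually.of_forall fun k => pr_nonneg (S := v.W.rest A) v.E k)
  have p1 : 0 < ul (v.W.pr A) := by
    rcases n1.lt_or_eq with h | h
    · exact h
    · rw [← h, zero_mul] at h5; exact absurd h5 (lt_irrefl _)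
  have p2 : 0 < ul ((v.W.rest A).pr v.E) := by
    rcases n2.lt_or_eq with h | h
    · exact h
    · rw [← h, mul_zero] at h5; exact absurd h5 (lt_irrefl _)
  have p3 : 0 < ul (S.pr E1) := by
    rw [← Helper24.T3.ul_pr_pj v.p E1]
    exact p1
  refine ⟨p3, ⟨v.W.rest A, Helper97.SL.rj v.p E1, v.E, p2⟩, fun x y => ?_⟩
  have e0 : ∀ z : S.L, Vw.up ⟨v.W.rest A, Helper97.SL.rj v.p E1, v.E, p2⟩ (restL E1 p3 z) =
      restL (S := v.W.rest A) v.E p2 (restL A p1 (v.p.map z)) := by
    intro z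
    show restL (S := v.W.rest A) v.E p2 ((Helper97.SL.rj v.p E1).map (restL E1 p3 z)) = _
    rw [Helper97.SL.rj_map]
  rw [e0, e0]
  refine Eq.trans ?_ (rr_h A v.E p1 p2 (v.p.map x) (v.p.map y)).symm
  have hp : 0 < ul ((v.W.rest v.E).pr A) := by rw [h1]; exact one_pos
  have e1 := rr_h v.E A v.hE hp (v.p.map x) (v.p.map y)
  have e2 : h (restL (S := v.W.rest v.E) A hp (restL v.E v.hE (v.p.map x)))
      (restL (S := v.W.rest v.E) A hp (restL v.E v.hE (v.p.map y))) =
      h (restL v.E v.hE (v.p.map x)) (restL v.E v.hE (v.p.map y)) :=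
    h_restL_typ (S := v.W.rest v.E) A ht _ _
  have e3 : EE v.E A = EE (S := v.W) A v.E := by
    funext k ω
    exact propext and_comm
  show h (restL v.E v.hE (v.p.map x)) (restL v.E v.hE (v.p.map y)) = _
  exact (e2.symm.trans e1).trans (ev_congr e3 _ _ _ _)

end nest

end

end Pool.Agent.Helper54.NB
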