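import Pool.Agent.Helper54.NB.M1r
import Pool.Agent.Helper54.NB.Vw
import Pool.Agent.Helper72.LR.Tru
import Pool.Agent.Helper57.TA.Sc

/-! The one-dimensional lemma in agreement form, for functions (classes). -/

set_option autoImplicit false

namespace Pool.Agent.Helper54.NB

open Finset Filter Topology Pool.Agent.Helper69.RK Pool.Agent.Helper31.EC Pool.Agent.Helper82.TP

noncomputable section

open Sp QS

/-- **One-dimensional lemma, agreement form, over a base and beyond a level.** `z = β + t α = β' + t α'` up to the level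
`r`; the base `F` knows `t` to the level `a`; over the labels `l ∋ α, β` and `l' ∋ α', β'` `t` is full beyond `a`;
`l`, `l'` are independent given `F`, `t`, `z`; `z` is unsaturated given `F`, `t` on all events: `α = α'` up to the
level `r - a` -/
theorem m1_qs {W : Sp} (α β t α' β' : QS W) (F l l' : W.L) (r a ρ : ℝ) (hρ : 0 < ρ) (ha : 0 ≤ a) (hr : r ≤ 1)
    (hz : (β + t * α) - (β' + t * α') ∈ Id W r) (hta : dg t a ≤ F)
    (hα : dg α r ≤ l) (hβ : dg β r ≤ l ⊔ F) (hα' : dg α' r ≤ l') (hβ' : dg β' r ≤ l' ⊔ F)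
    (hTl : r - a ≤ h (dg t r) (l ⊔ F)) (hTl' : r - a ≤ h (dg t r) (l' ⊔ F))
    (hI : I l l' (dg t r ⊔ dg (β + t * α) r ⊔ F) = 0)
    (hu : ∀ (E : ∀ k, (W.F k).Ω → Prop) (hE : 0 < ul (W.pr E)) (v : ℝ), a ≤ v → v ≤ r →
      h (restL E hE (dg (β + t * α) r)) (restL E hE (dg (β + t * α) v ⊔ (dg t r ⊔ F))) ≤ (1 - ρ) * (r - v)) :
    α - α' ∈ Id W (r - a) := by
  rcases le_or_gt r a with hra | hra
  · exact mem_Id_nonpos (by linarith)
  obtain ⟨tc, hc1, hc2⟩ := Helper72.LR.exists_trunc t ha (hra.le.trans hr)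
  have hup : ∀ x : W.L, dg t a ≤ x → h (dg t r) x ≤ r - a := fun x hx => (h_anti hx).trans (h_dg_dg t hra.le)
  have e1 : h (dg t r) (l ⊔ F) = r - a := le_antisymm (hup _ (hta.trans le_sup_right)) hTl
  have e2 : h (dg t r) (l' ⊔ F) = r - a := le_antisymm (hup _ (hta.trans le_sup_right)) hTl'
  have hc3 : dg tc r ≤ F := (dg_mono tc hr).trans (hc2.trans hta)
  obtain ⟨α, rfl⟩ := mk_surj α
  obtain ⟨β, rfl⟩ := mk_surj β
  obtain ⟨t, rfl⟩ := mk_surj t
  obtain ⟨α', rfl⟩ := mk_surj α'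
  obtain ⟨β', rfl⟩ := mk_surj β'
  obtain ⟨tc, rfl⟩ := mk_surj tc
  have em : mk β + mk t * mk α = mk (β + t * α) := by rw [map_add, map_mul]
  rw [dg_mk _ hr] at hα hβ hα' hβ' e1 e2 hc3
  rw [em, dg_mk _ hr, dg_mk _ hr] at hI
  have g1 : TR.Ag r (β + t * α) (β' + t * α') := by
    rw [← map_mul, ← map_mul, ← map_add, ← map_add, ← map_sub, mk_mem_Id hr] at hz
    have h1 := hz.add (TR.Ag.refl r (β' + t * α'))
    rwa [sub_add_cancel, zero_add] at h1
  have g2 : TR.Ag a t tc := by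
    rw [← map_sub, mk_mem_Id (hra.le.trans hr)] at hc1
    have h1 := hc1.add (TR.Ag.refl a t)
    rw [sub_add_cancel, zero_add] at h1
    exact h1.symm
  have key : ∀ δ : ℝ, 0 < δ → a + δ ≤ r → Typ (fun k ω => |TR.ev (α - α') k ω| ≤ W.dl (r - a - δ) k) := by
    intro δ hδ hδ'
    refine m1_rel α β t α' β' t tc F l l' r a δ ρ hδ hδ' hρ ha g1 (TR.Ag.refl r t) hc3 g2 hα hβ hα' hβ' e1 e2 hI ?_
    intro E hE v hv1 hv2
    have h1 := hu E hE v hv1 hv2
    rwa [em, dg_mk _ hr, dg_mk _ (hv2.trans hr), dg_mk _ hr] at h1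
  rw [← map_sub, mk_mem_Id (by linarith)]
  apply TR.ag_of_levels
  intro δ hδ
  rcases le_total (a + δ) r with h1 | h1
  · have h2 := key δ hδ h1
    refine h2.mono (Eventually.of_forall fun k ω _ hk => ?_)
    rwa [TR.ev_zero, sub_zero]
  · have h2 := key (r - a) (by linarith) (by linarith)
    refine h2.mono (Eventually.of_forall fun k ω _ hk => ?_)
    rw [TR.ev_zero, sub_zero]
    refine hk.trans (W.dl_anti ?_ k)
    linarith

end

end Pool.Agent.Helper54.NB
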