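import Pool.Agent.Helper25.EC.M1
import Pool.Agent.Helper31.EC.Uns

/-! LEMMA NB (R^4, d = 1): the one-dimensional lemma in agreement form over a base and beyond a level
(relative version of helper25's `m1_agree`). -/

set_option autoImplicit false

namespace Pool.Agent.Helper54.NB

open Finset Filter Topology Pool.Agent.Helper69.RK Pool.Agent.Helper31.EC Pool.Agent.Helper31.EC.Sp
open Pool.Agent.Helper25.EC

noncomputable section

/-- the entropy part, over a base `F` -/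
theorem m1_abs_rel {L : Type*} [PM L] (F l l' T Z lv Zv Tw : L) (r c : ℝ)
    (hT : h T F ≤ r) (hTl : h T (l ⊔ F) = r) (hTl' : h T (l' ⊔ F) = r)
    (hI : I l l' (T ⊔ Z ⊔ F) = 0) (hZl : Z ≤ l ⊔ T ⊔ F) (hZl' : Z ≤ l' ⊔ T ⊔ F) (hvl : lv ≤ l ⊔ F)
    (hvl' : lv ≤ l' ⊔ F) (hZv : Zv ≤ lv ⊔ T ⊔ F) (hTw : Tw ≤ l ⊔ l' ⊔ F) (hTw' : h T (Tw ⊔ F) ≤ c) :
    r ≤ h Z (T ⊔ F) - h Zv (T ⊔ F) + c := by
  have e1 : h (l ⊔ l') (T ⊔ Z ⊔ F) = h l (T ⊔ Z ⊔ F) + h l' (T ⊔ Z ⊔ F) := by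
    have h1 := hI
    rw [I_eq'] at h1
    rw [h_chain]
    linarith
  have e2 : H (l ⊔ l' ⊔ (T ⊔ Z ⊔ F)) = h (l ⊔ l') (T ⊔ Z ⊔ F) + H (T ⊔ Z ⊔ F) := by unfold h; ring
  have e3 : H (l ⊔ (T ⊔ Z ⊔ F)) = h l (T ⊔ Z ⊔ F) + H (T ⊔ Z ⊔ F) := by unfold h; ring
  have e4 : H (l' ⊔ (T ⊔ Z ⊔ F)) = h l' (T ⊔ Z ⊔ F) + H (T ⊔ Z ⊔ F) := by unfold h; ring
  have s1 : l ⊔ (T ⊔ Z ⊔ F) = T ⊔ (l ⊔ F) := by
    apply le_antisymm
    · refine sup_le (by order) (sup_le (sup_le (by order) ?_) (by order))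
      refine hZl.trans (by order)
    · order
  have s2 : l' ⊔ (T ⊔ Z ⊔ F) = T ⊔ (l' ⊔ F) := by
    apply le_antisymm
    · refine sup_le (by order) (sup_le (sup_le (by order) ?_) (by order))
      refine hZl'.trans (by order)
    · order
  have s3 : l ⊔ l' ⊔ (T ⊔ Z ⊔ F) = T ⊔ (l ⊔ l' ⊔ F) := by
    apply le_antisymm
    · refine sup_le (by order) (sup_le (sup_le (by order) ?_) (by order))
      refine hZl'.trans (by order)
    · order
  have f1 : H (T ⊔ (l ⊔ F)) = H (l ⊔ F) + r := by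
    rw [← hTl]; unfold h; ring
  have f2 : H (T ⊔ (l' ⊔ F)) = H (l' ⊔ F) + r := by
    rw [← hTl']; unfold h; ring
  have f3 : H (T ⊔ Z ⊔ F) = H (T ⊔ F) + h Z (T ⊔ F) := by
    have : T ⊔ Z ⊔ F = Z ⊔ (T ⊔ F) := by
      apply le_antisymm <;> order
    rw [this]; unfold h; ring
  have f4 : H (T ⊔ F) = H F + h T F := by unfold h; ring
  have g1 : H (T ⊔ (l ⊔ l' ⊔ F)) = H (l ⊔ F) + H (l' ⊔ F) + 2 * r - H (T ⊔ F) - h Z (T ⊔ F) := by
    rw [s1] at e3; rw [s2] at e4; rw [s3] at e2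
    linarith
  -- upper bound
  have u1 : H (T ⊔ (l ⊔ l' ⊔ F)) = H (l ⊔ l' ⊔ F) + h T (l ⊔ l' ⊔ F) := by unfold h; ring
  have u2 : h T (l ⊔ l' ⊔ F) ≤ c := (h_anti (sup_le hTw le_sup_right)).trans hTw'
  have u3 : H (l ⊔ l' ⊔ F) = H (l ⊔ F) + h l' (l ⊔ F) := by
    have : l ⊔ l' ⊔ F = l' ⊔ (l ⊔ F) := by
      apply le_antisymm <;> order
    rw [this]; unfold h; ring
  have u4 : h l' (l ⊔ F) ≤ H (l' ⊔ F) - H (lv ⊔ F) := by
    have a1 : h l' (l ⊔ F) ≤ h l' (lv ⊔ F) := h_anti (sup_le hvl le_sup_right)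
    have a2 : h l' (lv ⊔ F) = H (l' ⊔ (lv ⊔ F)) - H (lv ⊔ F) := rfl
    have a3 : l' ⊔ (lv ⊔ F) = l' ⊔ F := by
      apply le_antisymm
      · exact sup_le le_sup_left (sup_le hvl' le_sup_right)
      · order
    rw [a3] at a2
    linarith
  have u5 : h Zv (T ⊔ F) ≤ H (lv ⊔ F) - H F := by
    have a1 : h Zv (T ⊔ F) ≤ h (lv ⊔ (T ⊔ F)) (T ⊔ F) := h_mono (by rw [← sup_assoc]; exact hZv)
    rw [h_sup_right_of_le le_rfl] at a1
    have a2 : h lv (T ⊔ F) ≤ h lv F := h_anti le_sup_right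
    have a3 : h lv F = H (lv ⊔ F) - H F := rfl
    linarith
  linarith

variable {W : Sp}

/-- digits of a product of which one factor is small -/
theorem dg_mul_small (x y : TR W) (a v : ℝ) (hx : TR.Ag a x 0) :
    TR.dg (x * y) (a + v) ≤ TR.dg x (a + v) ⊔ TR.dg y v := by
  obtain ⟨E, K, hE, hK, hh⟩ := hx
  obtain ⟨M, hM, hM'⟩ := y.2
  apply VV.dg_le_dg2 _ _ _ _ _ _ E hE (fun k => M k + K k) (hM.add hK)
  filter_upwards [hh, hM', hM.1, hK.1] with k a1 b1 m0 k0 ω ω' h1 h2 e1 e2 _ g1 g2 _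
  have d1 : |TR.ev x k ω - TR.ev x k ω'| ≤ W.dl (a + v) k := g1 0
  have d2 : |TR.ev y k ω - TR.ev y k ω'| ≤ W.dl v k := g2 0
  have d3 : |TR.ev x k ω' - TR.ev (0 : TR W) k ω'| ≤ K k * W.dl a k := a1 ω' h2 e2
  rw [TR.ev_zero, sub_zero] at d3
  have d4 : |TR.ev y k ω| ≤ M k := b1 ω h1
  show |TR.ev (x * y) k ω - TR.ev (x * y) k ω'| ≤ (M k + K k) * W.dl (a + v) k
  rw [TR.ev_mul, TR.ev_mul]
  have e3 : TR.ev x k ω * TR.ev y k ω - TR.ev x k ω' * TR.ev y k ω' =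
      (TR.ev x k ω - TR.ev x k ω') * TR.ev y k ω + TR.ev x k ω' * (TR.ev y k ω - TR.ev y k ω') := by ring
  rw [e3]
  refine (abs_add_le _ _).trans ?_
  rw [abs_mul, abs_mul, add_mul]
  have p1 : |TR.ev x k ω - TR.ev x k ω'| * |TR.ev y k ω| ≤ M k * W.dl (a + v) k := by
    rw [mul_comm (M k)]
    exact mul_le_mul d1 d4 (abs_nonneg _) (W.dl_pos _ _).le
  have p2 : |TR.ev x k ω'| * |TR.ev y k ω - TR.ev y k ω'| ≤ K k * W.dl (a + v) k := by
    have e4 : W.dl (a + v) k = W.dl a k * W.dl v k := dl_add _ _ _ _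
    rw [e4, ← mul_assoc]
    exact mul_le_mul d3 d2 (abs_nonneg _) (mul_nonneg k0 (W.dl_pos _ _).le)
  linarith

/-- restriction of tame functions to an event commutes with the operations -/
theorem rst_eq (E : ∀ k, (W.F k).Ω → Prop) (f : TR W) : rst E f = TR.rest E f := rfl

/-- **One-dimensional lemma, agreement form, over a base and beyond a level.** `z = β + t α = β' + t' α'` up to level
`r`; the base `F` knows the corner `tc` of the cell of level `a` of `t`; over the labels `l ∋ α, β` and `l' ∋ α', β'`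
`t` is full beyond `a`; `l`, `l'` are independent given `F`, `t`, `z`; `z` is unsaturated given `F`, `t` on all events:
`α = α'` up to level `r - a`. -/
theorem m1_rel (α β t α' β' t' tc : TR W) (F l l' : W.L) (r a δ ρ : ℝ) (hδ : 0 < δ) (hδr : a + δ ≤ r) (hρ : 0 < ρ)
    (ha : 0 ≤ a)
    (hz : TR.Ag r (β + t * α) (β' + t' * α')) (ht : TR.Ag r t t')
    (htc : TR.dg tc r ≤ F) (hta : TR.Ag a t tc)
    (hα : TR.dg α r ≤ l) (hβ : TR.dg β r ≤ l ⊔ F) (hα' : TR.dg α' r ≤ l') (hβ' : TR.dg β' r ≤ l' ⊔ F)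
    (hTl : h (TR.dg t r) (l ⊔ F) = r - a) (hTl' : h (TR.dg t r) (l' ⊔ F) = r - a)
    (hI : I l l' (TR.dg t r ⊔ TR.dg (β + t * α) r ⊔ F) = 0)
    (hu : ∀ (E : ∀ k, (W.F k).Ω → Prop) (hE : 0 < ul (W.pr E)) (v : ℝ), a ≤ v → v ≤ r →
      h (restL E hE (TR.dg (β + t * α) r)) (restL E hE (TR.dg (β + t * α) v ⊔ (TR.dg t r ⊔ F))) ≤
        (1 - ρ) * (r - v)) :
    Typ (fun k ω => |TR.ev (α - α') k ω| ≤ W.dl (r - a - δ) k) := by
  by_contra hc
  have hε : 0 < ρ * δ / 2 := by positivity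
  obtain ⟨v, K, hv0, hvs, hK, hE⟩ := bin (α - α') (r - a - δ) (ρ * δ / 2) (by linarith) hε hc
  set E : ∀ k, (W.F k).Ω → Prop := fun k ω => W.dl (v + ρ * δ / 2) k < |TR.ev (α - α') k ω| ∧
    |TR.ev (α - α') k ω| ≤ K k * W.dl v k with hEdef
  have hr0 : 0 ≤ r := by linarith
  have hmem := rest_mem E hE
  -- the functions on the event
  set A := rst E α with hA
  set b := rst E β with hb
  set A' := rst E α' with hA'
  set b' := rst E β' with hb'
  set τ := rst E t with hτ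
  set τ' := rst E t' with hτ'
  set τc := rst E tc with hτc
  set G := restL E hE F with hG
  set m := restL E hE l with hm
  set m' := restL E hE l' with hm'
  have hz1 : TR.Ag r (b + τ * A) (b' + τ' * A') := ag_rst E hE hz
  have ht1 : TR.Ag r τ τ' := ag_rst E hE ht
  have hc1 : TR.Ag a τ τc := ag_rst E hE hta
  have hcF : TR.dg τc r ≤ G := by
    rw [rst_dg E hE]
    exact restL_mono E hE htc
  have hAm : TR.dg A r ≤ m := by rw [rst_dg E hE]; exact restL_mono E hE hα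
  have hbm : TR.dg b r ≤ m ⊔ G := by
    rw [rst_dg E hE, hm, hG, ← restL_sup]; exact restL_mono E hE hβ
  have hAm' : TR.dg A' r ≤ m' := by rw [rst_dg E hE]; exact restL_mono E hE hα'
  have hbm' : TR.dg b' r ≤ m' ⊔ G := by
    rw [rst_dg E hE, hm', hG, ← restL_sup]; exact restL_mono E hE hβ'
  -- `t` given a base which knows the corner
  have hmax : ∀ (F' : ∀ k, (W.F k).Ω → Prop) (hF' : 0 < ul (W.pr F')) (x : W.L), F ≤ x →
      h (restL F' hF' (TR.dg t r)) (restL F' hF' x) ≤ r - a := by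
    intro F' hF' x hx
    have u0 : TR.dg (rst F' t) a ≤ restL F' hF' x := by
      have u1 : TR.Ag a (rst F' t) (rst F' tc) := ag_rst F' hF' hta
      rw [u1.dg_eq le_rfl, rst_dg F' hF']
      refine restL_mono F' hF' (le_trans ?_ hx)
      exact (TR.dg_mono tc (by linarith)).trans htc
    rw [← rst_dg F' hF']
    refine (h_anti u0).trans ?_
    have := (TR.vec (fun _ : Fin 1 => rst F' t)).h_dg_dg (show a ≤ r by linarith)
    simp only [Nat.cast_one, one_mul] at this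
    exact this
  have k1 : h (TR.dg τ r) (m ⊔ G) = r - a := by
    rw [rst_dg E hE, hm, hG, ← restL_sup]
    exact Sp.h_rest_max E hE hTl (fun F' hF' => hmax F' hF' _ le_sup_right)
  have k2 : h (TR.dg τ r) (m' ⊔ G) = r - a := by
    rw [rst_dg E hE, hm', hG, ← restL_sup]
    exact Sp.h_rest_max E hE hTl' (fun F' hF' => hmax F' hF' _ le_sup_right)
  have k3 : I m m' (TR.dg τ r ⊔ TR.dg (b + τ * A) r ⊔ G) = 0 := by
    have h1 := I_rest_zero E hE hI
    rw [restL_sup, restL_sup, ← rst_dg E hE, ← rst_dg E hE] at h1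
    exact h1
  have dlr : ∀ s k, (W.rest E).dl s k = W.dl s k := fun _ _ => rfl
  -- `α` and `α'` agree up to level `v`, the values at the corner up to level `a + v`
  have g1 : TR.Ag v A A' := by
    refine ⟨fun _ _ => True, K, Typ_true, hK, ?_⟩
    filter_upwards [hmem] with k hk ω hω _
    exact (hk ω hω).2.2
  have hvr : a + v ≤ r := by linarith
  set B := b + τc * A with hB
  set B' := b' + τc * A' with hB'
  have hsm : TR.Ag a (τ - τc) 0 := by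
    have h1 := hc1.sub (TR.Ag.refl a τc)
    rwa [sub_self] at h1
  have g2 : TR.Ag (a + v) B B' := by
    -- B - B' = (z - z') - (τ - τc) (A - A') + (τ' - τ) A'
    obtain ⟨E1, K1, hE1, hK1, h1⟩ := hz1
    obtain ⟨E2, K2, hE2, hK2, h2⟩ := ht1
    obtain ⟨E3, K3, hE3, hK3, h3⟩ := hc1
    obtain ⟨E4, K4, hE4, hK4, h4⟩ := g1
    obtain ⟨M, hM, hM'⟩ := A'.2
    refine ⟨fun k ω => (E1 k ω ∧ E2 k ω) ∧ (E3 k ω ∧ E4 k ω), fun k => K1 k + K3 k * K4 k + K2 k * M k,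
      (hE1.and hE2).and (hE3.and hE4), (hK1.add (hK3.mul hK4)).add (hK2.mul hM), ?_⟩
    filter_upwards [h1, h2, h3, h4, hM', hK1.1, hK2.1, hK3.1, hM.1] with k a1 a2 a3 a4 a5 c1 c2 c3 c5 ω hω hEω
    obtain ⟨⟨e1, e2⟩, e3, e4⟩ := hEω
    have b1 := a1 ω hω e1
    have b2 := a2 ω hω e2
    have b3 := a3 ω hω e3
    have b4 := a4 ω hω e4
    have b5 : |TR.ev A' k ω| ≤ M k := a5 ω hω
    rw [TR.ev_add, TR.ev_mul, TR.ev_add, TR.ev_mul] at b1
    rw [hB, hB', TR.ev_add, TR.ev_mul, TR.ev_add, TR.ev_mul]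
    rw [dlr] at *
    have hdr : W.dl r k ≤ W.dl (a + v) k := W.dl_anti hvr k
    have hd := W.dl_pos (a + v) k
    have e5 : TR.ev b k ω + TR.ev τc k ω * TR.ev A k ω - (TR.ev b' k ω + TR.ev τc k ω * TR.ev A' k ω) =
        (TR.ev b k ω + TR.ev τ k ω * TR.ev A k ω - (TR.ev b' k ω + TR.ev τ' k ω * TR.ev A' k ω)) -
        (TR.ev τ k ω - TR.ev τc k ω) * (TR.ev A k ω - TR.ev A' k ω) -
        (TR.ev τ k ω - TR.ev τ' k ω) * TR.ev A' k ω := by ring
    rw [e5]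
    have p1 : |(TR.ev τ k ω - TR.ev τc k ω) * (TR.ev A k ω - TR.ev A' k ω)| ≤ K3 k * K4 k * W.dl (a + v) k := by
      rw [abs_mul, dl_add]
      calc _ ≤ (K3 k * W.dl a k) * (K4 k * W.dl v k) :=
            mul_le_mul b3 b4 (abs_nonneg _) (mul_nonneg c3 (W.dl_pos _ _).le)
        _ = _ := by ring
    have p2 : |(TR.ev τ k ω - TR.ev τ' k ω) * TR.ev A' k ω| ≤ K2 k * M k * W.dl (a + v) k := by
      rw [abs_mul]
      calc _ ≤ (K2 k * W.dl r k) * M k := mul_le_mul b2 b5 (abs_nonneg _) (mul_nonneg c2 (W.dl_pos _ _).le)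
        _ = K2 k * M k * W.dl r k := by ring
        _ ≤ _ := mul_le_mul_of_nonneg_left hdr (mul_nonneg c2 c5)
    have p3 : K1 k * W.dl r k ≤ K1 k * W.dl (a + v) k := mul_le_mul_of_nonneg_left hdr c1
    refine (abs_sub _ _).trans ?_
    have p4 := abs_sub (TR.ev b k ω + TR.ev τ k ω * TR.ev A k ω - (TR.ev b' k ω + TR.ev τ' k ω * TR.ev A' k ω))
      ((TR.ev τ k ω - TR.ev τc k ω) * (TR.ev A k ω - TR.ev A' k ω))
    calc _ ≤ K1 k * W.dl (a + v) k + K3 k * K4 k * W.dl (a + v) k + K2 k * M k * W.dl (a + v) k := by linarith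
      _ = _ := by ring
  -- the height is known up to level `r - v - ε`
  have g3 : TR.Ag r (τ * (A - A')) (b' - b) := by
    have h1 : TR.Ag r (τ * A') (τ' * A') := ht1.mul (TR.Ag.refl r A')
    have h2 := (hz1.sub h1).sub (TR.Ag.refl r b)
    have e1 : b + τ * A - τ * A' - b = τ * (A - A') := by ring
    have e2 : b' + τ' * A' - τ' * A' - b = b' - b := by ring
    rwa [e1, e2] at h2
  have g4 : TR.dg τ (r - (v + ρ * δ / 2)) ≤ TR.dg (A - A') r ⊔ TR.dg (b' - b) r := by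
    apply div_dg_le τ (A - A') (b' - b) r (v + ρ * δ / 2) _ g3
    filter_upwards [hmem] with k hk ω hω
    exact (hk ω hω).2.1
  have g5 : TR.dg τ (r - (v + ρ * δ / 2)) ≤ m ⊔ m' ⊔ G := by
    refine g4.trans (sup_le ?_ ?_)
    · rw [← TR.mem_Kn]
      exact Subring.sub_mem _ (TR.mem_Kn.mpr (hAm.trans (le_sup_left.trans le_sup_left)))
        (TR.mem_Kn.mpr (hAm'.trans (le_sup_right.trans le_sup_left)))
    · rw [← TR.mem_Kn]
      exact Subring.sub_mem _ (TR.mem_Kn.mpr (hbm'.trans (by order)))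
        (TR.mem_Kn.mpr (hbm.trans (by order)))
  have k5 : h (TR.dg τ r) (TR.dg τ (r - (v + ρ * δ / 2)) ⊔ G) ≤ v + ρ * δ / 2 := by
    refine (h_anti le_sup_left).trans ?_
    have h1 := (TR.vec (fun _ : Fin 1 => τ)).h_dg_dg (show r - (v + ρ * δ / 2) ≤ r by linarith)
    simp only [Nat.cast_one, one_mul] at h1
    have h2 : r - (r - (v + ρ * δ / 2)) = v + ρ * δ / 2 := by ring
    rw [h2] at h1
    exact h1
  have k6 : h (TR.dg τ r) G ≤ r - a := by
    rw [rst_dg E hE]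
    exact hmax E hE F le_rfl
  have hcv : ∀ s, s ≤ r → TR.dg τc s ≤ G := fun s hs => (TR.dg_mono τc hs).trans hcF
  have g6 : TR.dg (b + τ * A) r ≤ m ⊔ TR.dg τ r ⊔ G := by
    rw [← TR.mem_Kn]
    exact Subring.add_mem _ (TR.mem_Kn.mpr (hbm.trans (by order)))
      (Subring.mul_mem _ (TR.mem_Kn.mpr (by order)) (TR.mem_Kn.mpr (hAm.trans (by order))))
  have g6' : TR.dg (b + τ * A) r ≤ m' ⊔ TR.dg τ r ⊔ G := by
    rw [hz1.dg_eq le_rfl, ← TR.mem_Kn]
    refine Subring.add_mem _ (TR.mem_Kn.mpr (hbm'.trans (by order)))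
      (Subring.mul_mem _ (TR.mem_Kn.mpr ?_) (TR.mem_Kn.mpr (hAm'.trans (by order))))
    rw [← ht1.dg_eq le_rfl]
    order
  have hlv : TR.dg A' v ⊔ TR.dg B' (a + v) ≤ m' ⊔ G := by
    refine sup_le (((TR.dg_mono A' (by linarith)).trans hAm').trans le_sup_left) ?_
    rw [← TR.mem_Kn]
    exact Subring.add_mem _ (TR.mem_Kn.mpr ((TR.dg_mono b' hvr).trans hbm'))
      (Subring.mul_mem _ (TR.mem_Kn.mpr ((hcv _ hvr).trans le_sup_right))
        (TR.mem_Kn.mpr (((TR.dg_mono A' hvr).trans hAm').trans le_sup_left)))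
  have hlv' : TR.dg A' v ⊔ TR.dg B' (a + v) ≤ m ⊔ G := by
    rw [← g1.dg_eq le_rfl, ← g2.dg_eq le_rfl]
    refine sup_le (((TR.dg_mono A (by linarith)).trans hAm).trans le_sup_left) ?_
    rw [← TR.mem_Kn]
    exact Subring.add_mem _ (TR.mem_Kn.mpr ((TR.dg_mono b hvr).trans hbm))
      (Subring.mul_mem _ (TR.mem_Kn.mpr ((hcv _ hvr).trans le_sup_right))
        (TR.mem_Kn.mpr (((TR.dg_mono A hvr).trans hAm).trans le_sup_left)))
  have hZv : TR.dg (b + τ * A) (a + v) ≤ TR.dg A' v ⊔ TR.dg B' (a + v) ⊔ TR.dg τ r ⊔ G := by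
    have e1 : b + τ * A = B + (τ - τc) * A := by rw [hB]; ring
    rw [e1]
    refine (TR.add_dg_le _ _ _).trans (sup_le ?_ ?_)
    · rw [g2.dg_eq le_rfl]; order
    · refine (dg_mul_small _ _ a v hsm).trans (sup_le ?_ ?_)
      · rw [← TR.mem_Kn]
        exact Subring.sub_mem _ (TR.mem_Kn.mpr ((TR.dg_mono τ hvr).trans (by order)))
          (TR.mem_Kn.mpr ((hcv _ hvr).trans (by order)))
      · rw [g1.dg_eq le_rfl]; order
  have key := m1_abs_rel G m m' (TR.dg τ r) (TR.dg (b + τ * A) r) (TR.dg A' v ⊔ TR.dg B' (a + v))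
    (TR.dg (b + τ * A) (a + v)) (TR.dg τ (r - (v + ρ * δ / 2))) (r - a) (v + ρ * δ / 2)
    k6 k1 k2 k3 g6 g6' hlv' hlv hZv g5 k5
  have k4 := hu E hE (a + v) (by linarith) hvr
  rw [restL_sup, restL_sup, ← rst_dg, ← rst_dg, ← rst_dg] at k4
  have ez : rst E (β + t * α) = b + τ * A := rfl
  rw [ez, ← hτ, ← hG] at k4
  have k7 : h (TR.dg (b + τ * A) r) (TR.dg τ r ⊔ G) =
      h (TR.dg (b + τ * A) (a + v)) (TR.dg τ r ⊔ G) +
        h (TR.dg (b + τ * A) r) (TR.dg (b + τ * A) (a + v) ⊔ (TR.dg τ r ⊔ G)) := by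
    have h1 := h_chain (TR.dg (b + τ * A) (a + v)) (TR.dg (b + τ * A) r) (TR.dg τ r ⊔ G)
    rwa [sup_eq_right.mpr (TR.dg_mono (b + τ * A) hvr)] at h1
  rw [k7] at key
  have k9 : ρ * δ ≤ ρ * (r - (a + v)) := mul_le_mul_of_nonneg_left (by linarith) hρ.le
  have k10 : 0 < ρ * δ := by positivity
  nlinarith

end

end Pool.Agent.Helper54.NB
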