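import Pool.Agent.Helper54.NB.Agr
import Pool.Agent.Helper32.BF2.Sc

/-! LEMMA NB: consequences of a tilt which is a constant close to the tilt of a label. -/

set_option autoImplicit false

namespace Pool.Agent.Helper54.NB

open Finset Filter Topology Pool.Agent.Helper69.RK Pool.Agent.Helper31.EC Pool.Agent.Helper82.TP
open Pool.Agent.Helper25.EC Pool.Agent.Helper62.UR

noncomputable section

open Sp QS

/-- conditioning on a part of `A` keeps `A` independent of `B` -/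
theorem h_of_I_zero {L : Type*} [PM L] {A A' B C : L} (hI : I A B C = 0) (hA : A' ≤ A) :
    h A (A' ⊔ C) = h A (B ⊔ (A' ⊔ C)) := by
  have h1 : I A B (A' ⊔ C) = 0 := le_antisymm ((I_cond_le hA).trans hI.le) (I_nonneg _ _ _)
  rw [I_zero_iff_h] at h1
  exact h1.symm

namespace NBH

variable {S : Sp} {H : NBD S} {w1 w ρ σ : ℝ} {Sc : Set ℝ}

theorem wpos (hH : NBH H w1 w ρ σ Sc) : 0 < w := by linarith [hH.hw1, hH.hw]

theorem ws_le (hH : NBH H w1 w ρ σ Sc) {s : ℝ} (hs : s ∈ Sc) : w * s ≤ 1 :=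
  (mul_le_mul_of_nonneg_left (hH.le s hs) hH.wpos.le).trans hH.hwσ

theorem w1s_le (hH : NBH H w1 w ρ σ Sc) {s : ℝ} (hs : s ∈ Sc) : w1 * s ≤ w * s :=
  mul_le_mul_of_nonneg_right hH.hw (hH.pos s hs).le

theorem M_eq : H.M = H.q ⊔ dg H.R 1 := rfl

/-- digits of `z - α R` for a constant `α` -/
theorem dg_zeta (α : QS S) (hα : dg α 1 = ⊥) {r : ℝ} (hr : r ≤ 1) {A : S.L} (hz : dg H.z r ≤ A) (hR : dg H.R r ≤ A) :
    dg (H.z - α * H.R) r ≤ A := by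
  refine dg_sub_le' _ _ hr hz (dg_mul_le' _ _ hr ?_ hR)
  exact ((dg_mono α hr).trans hα.le).trans bot_le

theorem dg_zeta' (α : QS S) (hα : dg α 1 = ⊥) {r : ℝ} (hr : r ≤ 1) {A : S.L} (hz : dg (H.z - α * H.R) r ≤ A)
    (hR : dg H.R r ≤ A) : dg H.z r ≤ A := by
  have e1 : H.z = (H.z - α * H.R) + α * H.R := by ring
  rw [e1]
  refine dg_add_le' _ _ hr hz (dg_mul_le' _ _ hr ?_ hR)
  exact ((dg_mono α hr).trans hα.le).trans bot_le

/-- (U1) -/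
theorem U1 (hH : NBH H w1 w ρ σ Sc) {s π r : ℝ} {α : QS S} (hs : s ∈ Sc) (hα : dg α 1 = ⊥)
    (hc : α - H.c s ∈ Id S π) (hπ : π ≤ r) (hr : r ≤ w * s) (h0 : 0 ≤ π) :
    dg (H.z - α * H.R) r ≤ H.K s ⊔ H.q ⊔ dg H.R (r - π) := by
  obtain ⟨e, he, hz⟩ := hH.frZ s hs
  have hr1 : r ≤ 1 := hr.trans (hH.ws_le hs)
  have h1 : (H.z - α * H.R) - (e + H.R * (H.c s - α)) ∈ Id S r := by
    have e1 : (H.z - α * H.R) - (e + H.R * (H.c s - α)) = H.z - (e + H.c s * H.R) := by ring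
    rw [e1]
    exact Id_anti hr hz
  rw [dg_of_sub h1 le_rfl hr1]
  have hc' : dg (H.c s - α) r ≤ H.K s :=
    dg_sub_le' _ _ hr1 ((dg_mono _ hr1).trans (hH.cK s hs)) (((dg_mono α hr1).trans hα.le).trans bot_le)
  refine dg_add_le' _ _ hr1 (((dg_mono e hr1).trans he).trans le_sup_left) ?_
  have h2 : H.c s - α ∈ Id S π := by
    have e1 : H.c s - α = -(α - H.c s) := by ring
    rw [e1]
    exact (Id S π).neg_mem hc
  have h3 := Helper82.TP.dg_mul_small H.R (H.c s - α) (a := π) (b := r - π) (by linarith) (by linarith) (by linarith) h2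
  rw [add_sub_cancel] at h3
  exact h3.trans (sup_le le_sup_right (hc'.trans (le_sup_left.trans le_sup_left)))

/-- fullness of `R` over the labels beyond their boxes -/
theorem fullK (hH : NBH H w1 w ρ σ Sc) {s a : ℝ} (hs : s ∈ Sc) (ha : w1 * s ≤ a) (ha1 : a ≤ 1) :
    1 - a ≤ h (dg H.R 1) (H.K s ⊔ H.q ⊔ dg H.R a) :=
  full_high H.R ha ha1 (hH.frR s hs) (hH.full s hs)

/-- (U2) -/
theorem U2 (hH : NBH H w1 w ρ σ Sc) {s π r : ℝ} {α : QS S} (hs : s ∈ Sc) (hα : dg α 1 = ⊥)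
    (hc : α - H.c s ∈ Id S π) (h0 : 0 ≤ π) (hπ : w1 * s ≤ r - π) (hr : r ≤ w * s) :
    1 - (r - π) ≤ h (dg H.R 1) (dg (H.z - α * H.R) r ⊔ (H.q ⊔ dg H.R (r - π))) := by
  have hw1s : 0 ≤ w1 * s := mul_nonneg (by linarith [hH.hw1]) (hH.pos s hs).le
  have hr1 : r ≤ 1 := hr.trans (hH.ws_le hs)
  refine (hH.fullK hs hπ (by linarith)).trans (h_anti ?_)
  refine sup_le (hH.U1 hs hα hc (by linarith) hr h0) (sup_le ?_ le_sup_right)
  exact le_sup_right.trans le_sup_left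

theorem U2I (hH : NBH H w1 w ρ σ Sc) {s π r : ℝ} {α : QS S} (hs : s ∈ Sc) (hα : dg α 1 = ⊥)
    (hc : α - H.c s ∈ Id S π) (h0 : 0 ≤ π) (hπ : w1 * s ≤ r - π) (hr : r ≤ w * s) :
    I (dg (H.z - α * H.R) r) (dg H.R 1) (H.q ⊔ dg H.R (r - π)) = 0 := by
  apply le_antisymm _ (I_nonneg _ _ _)
  have hw1s : 0 ≤ w1 * s := mul_nonneg (by linarith [hH.hw1]) (hH.pos s hs).le
  have hr1 : r ≤ 1 := hr.trans (hH.ws_le hs)
  have h1 := hH.U2 hs hα hc h0 hπ hr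
  have h2 : h (dg H.R 1) (H.q ⊔ dg H.R (r - π)) ≤ 1 - (r - π) :=
    (h_anti le_sup_right).trans (h_dg_dg H.R (by linarith))
  rw [I_eq']
  linarith

/-- (U3) -/
theorem U3 (hH : NBH H w1 w ρ σ Sc) {s π r : ℝ} {α : QS S} (hs : s ∈ Sc) (hα : dg α 1 = ⊥)
    (hc : α - H.c s ∈ Id S π) (h0 : 0 ≤ π) (hπ : w1 * s ≤ r - π) (hr : r ≤ w * s) (v : ℝ) (hv : 0 ≤ v)
    (hvr : v ≤ r) :
    Uq S (dg (H.z - α * H.R) r) (dg (H.z - α * H.R) v ⊔ (dg H.R (r - π) ⊔ H.q)) ((1 - ρ) * (r - v)) := by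
  intro u
  have hr1 : r ≤ 1 := hr.trans (hH.ws_le hs)
  set ζ := H.z - α * H.R with hζ
  have h1 : I (u.up (dg ζ r)) (u.up (dg H.R 1)) (u.up (H.q ⊔ dg H.R (r - π))) = 0 :=
    u.up_I (hH.U2I hs hα hc h0 hπ hr)
  have h2 := h_of_I_zero h1 (u.up_mono (dg_mono ζ hvr))
  have e1 : u.up (dg ζ v ⊔ (dg H.R (r - π) ⊔ H.q)) = u.up (dg ζ v) ⊔ u.up (H.q ⊔ dg H.R (r - π)) := by
    rw [u.up_sup, sup_comm H.q]
  rw [e1, h2, ← u.up_sup, ← u.up_sup]
  have h3 := hH.uns u.W u.p u.E u.hE v r hv hvr hr1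
  have h4 : h (u.up (dg H.z r)) (u.up (dg H.z v ⊔ H.M)) ≤ (1 - ρ) * (r - v) := h3
  refine le_trans ?_ h4
  have h5 : h (u.up (dg ζ r)) (u.up (dg H.R 1 ⊔ (dg ζ v ⊔ (H.q ⊔ dg H.R (r - π))))) ≤
      h (u.up (dg H.z r) ⊔ u.up (dg H.z v ⊔ H.M)) (u.up (dg H.z v ⊔ H.M)) := by
    refine (h_mono ?_).trans (h_anti (u.up_mono ?_))
    · rw [← u.up_sup]
      refine u.up_mono (dg_zeta α hα hr1 le_sup_left ?_)
      exact (dg_mono H.R hr1).trans ((le_sup_right.trans le_sup_right).trans le_sup_right)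
    · refine sup_le ?_ (sup_le ?_ le_sup_left)
      · refine dg_zeta' α hα (hvr.trans hr1) (le_sup_left.trans le_sup_right) ?_
        exact (dg_mono H.R (hvr.trans hr1)).trans le_sup_left
      · exact le_sup_left.trans (le_sup_right.trans le_sup_right)
  rwa [h_sup_right_of_le le_rfl] at h5

end NBH

end

end Pool.Agent.Helper54.NB
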