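import Pool.Agent.Helper54.NB.Sta
import Pool.Agent.Helper8.PLK.NbR

/-! LEMMA NB, the step: if the velocities are not functions of the point then the planks give a new constant tilt. -/

set_option autoImplicit false

namespace Pool.Agent.Helper54.NB

open Finset Filter Topology Pool.Agent.Helper69.RK Pool.Agent.Helper31.EC Pool.Agent.Helper82.TP
open Pool.Agent.Helper46.LIN Pool.Agent.Helper25.EC Pool.Agent.Helper62.UR
open Pool.Agent.Helper57.TA (sc)
open Pool.Agent.Helper8.PLK (lit_desc round_vw exhaust)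

noncomputable section

open Sp QS

section desc2

variable {S : Sp}

/-- an event of the space below in a view: a view of the restricted space -/
theorem desc2 (v : Vw S) (E1 : ∀ k, (S.F k).Ω → Prop) (hp : 0 < ul (v.D.pr (fun k ω => E1 k (v.p.π k ω)))) :
    ∃ (A : ∀ k, (v.D.F k).Ω → Prop) (hA : 0 < ul (v.D.pr A)) (hE1 : 0 < ul (S.pr E1)) (u : Vw (S.rest E1)),
      ∀ x y : S.L, h (restL A hA (v.up x)) (restL A hA (v.up y)) =
        h (u.up (restL E1 hE1 x)) (u.up (restL E1 hE1 y)) := by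
  set A : ∀ k, (v.W.F k).Ω → Prop := fun k ω => E1 k (v.p.π k ω) with hA
  have h2 := Helper24.T3.ul_pr_and (S := v.W) v.E A
  have h3 := Helper24.T3.ul_pr_and (S := v.W) A v.E
  have h4 : (fun k ω => v.E k ω ∧ A k ω) = fun k ω => A k ω ∧ v.E k ω := by
    funext k ω
    exact propext and_comm
  have hp' : 0 < ul ((v.W.rest v.E).pr A) := hp
  have h5 : 0 < ul (v.W.pr A) * ul ((v.W.rest A).pr v.E) := by
    rw [h3, ← h4, ← h2]
    exact mul_pos v.hE hp'
  have n1 : 0 ≤ ul (v.W.pr A) := const_le_ul (UB_pr A) (Eventually.of_forall fun k => pr_nonneg A k)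
  have n2 : 0 ≤ ul ((v.W.rest A).pr v.E) :=
    const_le_ul (UB_pr (S := v.W.rest A) v.E) (Eventually.of_forall fun k => pr_nonneg (S := v.W.rest A) v.E k)
  have p1 : 0 < ul (v.W.pr A) := by
    rcases n1.lt_or_eq with h | h
    · exact h
    · rw [← h, zero_mul] at h5; exact absurd h5 (lt_irrefl _)
  have p2 : 0 < ul ((v.W.rest A).pr v.E) := by
    rcases n2.lt_or_eq with h | h
    · exact h
    · rw [← h, mul_zero] at h5; exact absurd h5 (lt_irrefl _)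
  have p3 : 0 < ul (S.pr E1) := by
    rw [← Helper24.T3.ul_pr_pj v.p E1]
    exact p1
  refine ⟨A, hp, p3, ⟨v.W.rest A, Helper97.SL.rj v.p E1, v.E, p2⟩, fun x y => ?_⟩
  have e0 : ∀ z : S.L, Vw.up ⟨v.W.rest A, Helper97.SL.rj v.p E1, v.E, p2⟩ (restL E1 p3 z) =
      restL (S := v.W.rest A) v.E p2 (restL A p1 (v.p.map z)) := by
    intro z
    show restL (S := v.W.rest A) v.E p2 ((Helper97.SL.rj v.p E1).map (restL E1 p3 z)) = _
    rw [Helper97.SL.rj_map]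
  rw [e0, e0]
  refine Eq.trans ?_ (rr_h A v.E p1 p2 (v.p.map x) (v.p.map y)).symm
  have e1 := rr_h v.E A v.hE hp' (v.p.map x) (v.p.map y)
  have e3 : EE v.E A = EE (S := v.W) A v.E := by
    funext k ω
    exact propext and_comm
  exact e1.trans (ev_congr e3 _ _ _ _)

end desc2

namespace NBH

variable {S : Sp} {H : NBD S} {w1 w ρ σ : ℝ} {Sc : Set ℝ}

theorem rest (hH : NBH H w1 w ρ σ Sc) (E : ∀ k, (S.F k).Ω → Prop) (hE : 0 < ul (S.pr E)) :
    NBH (H.rest E hE) w1 w ρ σ Sc := Helper8.PLK.NBH.rest hH E hE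

theorem q_le : H.q ≤ dg H.t 1 ⊔ H.b := by
  refine sup_le le_sup_left ?_
  exact dg_add_le' _ _ le_rfl (le_sup_right.trans le_sup_right) (dg_mul_le' _ _ le_rfl le_sup_left
    (le_sup_left.trans le_sup_right))

theorem b_le : H.b ≤ dg H.x 1 ⊔ H.q := by
  refine sup_le le_sup_left ?_
  have e1 : H.a = H.y - H.t * H.x := by
    show H.a = H.a + H.t * H.x - H.t * H.x
    ring
  rw [e1]
  exact dg_sub_le' _ _ le_rfl (le_sup_right.trans le_sup_right) (dg_mul_le' _ _ le_rfl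
    (le_sup_left.trans le_sup_right) le_sup_left)

end NBH

section scl

variable {S : Sp}

/-- digits of scaled functions, any level -/
theorem dg_scl (g : QS S) {a r : ℝ} (ha : 0 ≤ a) (hr : r ≤ 1) : dg (sc S a * g) r = dg g (r - a) := by
  have h1 := Helper32.BF2.dg_sc_mul g (a := a) (r := r - a) ha (by linarith)
  rwa [add_sub_cancel] at h1

end scl

/-- the conclusion of the step: a constant tilt `fB` such that `R` is full over `z - (α + 2 ^ (-π n) fB) R` up to the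
level `r` beyond the level `a0` -/
def StO {S : Sp} (H : NBD S) (α : QS S) (π r a0 : ℝ) : Prop :=
  ∃ (fA fB : QS S) (E1 : ∀ k, (S.F k).Ω → Prop) (hE1 : 0 < ul (S.pr E1)) (u : Vw (S.rest E1)),
    Lit H.VA fA ∧ Lit H.VB fB ∧ QS.rest E1 hE1 fA = QS.rest E1 hE1 fB ∧
    ∀ a', a0 ≤ a' → a' ≤ 1 → 1 - a' ≤ h (u.up (restL E1 hE1 (dg H.R 1)))
      (u.up (restL E1 hE1 (dg (H.z - (α + sc S π * fB) * H.R) r ⊔ (H.q ⊔ dg H.R a'))))

/-- literal variables in views -/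
theorem vw_lit {S : Sp} (v : Vw S) {β : ℕ → Type} {V : ∀ k, (S.F k).Ω → β k} {g : QS S} (hg : Lit V g) :
    Lit (S := v.D) (fun k ω => V k (v.p.π k ω)) (v.uq g) := lit_rest v.E v.hE (lit_pull v.p hg)

theorem vw_bdd {S : Sp} (v : Vw S) {β : ℕ → Type} {V : ∀ k, (S.F k).Ω → β k} (hV : Bdd V) :
    Bdd (S := v.D) (fun k ω => V k (v.p.π k ω)) :=
  rest_VB v.E ((v.p.bdd_iff V).mpr hV)

theorem vw_io {S : Sp} (v : Vw S) {β : ℕ → Type} {V : ∀ k, (S.F k).Ω → β k} (hV : Bdd V) :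
    io (S := v.D) (fun k ω => V k (v.p.π k ω)) = v.up (io V) := by
  unfold Vw.up
  rw [v.p.map_io V, restL_io v.E v.hE ((v.p.bdd_iff V).mpr hV)]
  rfl

/-- THE STEP -/
theorem step (hPL : PLKr) {S : Sp} {H : NBD S} {w1 w ρ σ : ℝ} {Sc : Set ℝ} (hH : NBH H w1 w ρ σ Sc)
    {s π r : ℝ} {α : QS S} (hs : s ∈ Sc) (lA : Lit H.VA α)
    (lB : Lit H.VB α) (hα : dg α 1 = ⊥) (hc : α - H.c s ∈ Id S π) (h0 : 0 ≤ π) (hπ : w1 * s ≤ r - π) (hr : r ≤ w * s)
    {e e2 η : ℝ} (he : 0 < e) (he2 : e < e2) (hη : 0 < η) (hη' : e2 + η ≤ r)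
    (hpos : 0 < h (dg H.F (e - π) ⊔ dg (H.v - α * H.F) e)
      (dg H.R (r - π) ⊔ dg (H.z - α * H.R) r ⊔ dg H.t 1 ⊔ H.b)) :
    StO H α π r (e2 - π + η) := by
  have hr1 : r ≤ 1 := hr.trans (hH.ws_le hs)
  have hr0 : 0 < r := by linarith
  set μ := sc S π with hμ
  set ζ := H.z - α * H.R with hζ
  set cζ := H.cz - α * H.cR with hcζ
  set vζ := H.v - α * H.F with hvζ
  have eT : μ * H.cR + H.t * (μ * H.F) = μ * H.R := by
    show _ = μ * (H.cR + H.t * H.F)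
    ring
  have eZ : cζ + H.t * vζ = ζ := by
    show _ = (H.cz + H.t * H.v) - α * (H.cR + H.t * H.F)
    rw [hcζ, hvζ]; ring
  have dT : ∀ l, l ≤ 1 → dg (μ * H.R) l = dg H.R (l - π) := fun l hl => dg_scl H.R h0 hl
  have lμA : Lit H.VA μ := Helper32.BF2.lit_sc H.VA π
  have lμB : Lit H.VB μ := Helper32.BF2.lit_sc H.VB π
  have lcζ : Lit H.VA cζ := hH.lcz.sub (lA.mul hH.lcR)
  have lvζ : Lit H.VA vζ := hH.lv.sub (lA.mul hH.lF)
  have lζ : Lit H.VB ζ := hH.lz.sub (lB.mul hH.lR)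
  have U3 := fun v hv hvr => hH.U3 hs hα hc h0 hπ hr v hv hvr
  have hPL' := hPL S H.b H.t (μ * H.cR) (μ * H.F) cζ vζ r ρ e e2 hr0 hr1 hH.hρ he he2 (by linarith) ?_ ?_ ?_
  rotate_left
  · refine le_antisymm (h_dg_le_one _ _) (hH.time.ge.trans (h_anti ?_))
    refine sup_le (sup_le (sup_le (sup_le ?_ ?_) ?_) ?_) (sup_le (hH.lx.dg_le hH.bA le_rfl) (hH.la.dg_le hH.bA le_rfl))
    · exact (lμA.mul hH.lcR).dg_le hH.bA le_rfl
    · exact (lμA.mul hH.lF).dg_le hH.bA le_rfl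
    · exact lcζ.dg_le hH.bA le_rfl
    · exact lvζ.dg_le hH.bA le_rfl
  · intro T p E hE v hv hvr
    rw [eT, eZ]
    refine le_trans (h_anti ?_) (U3 v hv hvr ⟨T, p, E, hE⟩)
    refine restL_mono E hE (p.map_mono ?_)
    rw [dT r hr1]
    refine sup_le ((le_sup_left.trans le_sup_left).trans le_sup_left) (sup_le
      ((le_sup_right.trans le_sup_left).trans le_sup_left) (NBH.q_le.trans ?_))
    exact sup_le (le_sup_right.trans le_sup_left) le_sup_right
  · rw [eT, eZ, dT r hr1, dg_scl H.F h0 (by linarith)]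
    exact hpos
  rw [eT, eZ] at hPL'
  obtain ⟨W, p, E, hE, α', β0, β1, V, hVl, hVp, hα', hβ0, hβ1, hZ, hfull, hcmp⟩ := hPL'
  set v : Vw S := ⟨W, p, E, hE⟩ with hv
  change V ≤ v.up _ at hVl
  change V ≤ v.up _ at hVp
  change v.uq ζ - (β0 + β1 * v.uq H.t + α' * v.uq (μ * H.R)) ∈ Id v.D r at hZ
  change r - e2 ≤ h (v.up _) (V ⊔ v.up _) at hfull
  have hb : v.up H.b = dg (v.uq H.x) 1 ⊔ dg (v.uq H.a) 1 := by
    rw [v.uq_dg, v.uq_dg, ← v.up_sup]
    rfl
  have hq : v.up H.q = dg (v.uq H.t) 1 ⊔ dg (v.uq H.y) 1 := by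
    rw [v.uq_dg, v.uq_dg, ← v.up_sup]
    rfl
  have eTv : v.uq (μ * H.cR) + v.uq H.t * v.uq (μ * H.F) = v.uq (μ * H.R) := by
    rw [← eT, map_add, map_mul v.uq H.t]
  have eZv : v.uq cζ + v.uq H.t * v.uq vζ = v.uq ζ := by
    rw [← eZ, map_add, map_mul v.uq H.t]
  have dTv : ∀ l, dg (v.uq (μ * H.R)) l = v.up (dg (μ * H.R) l) := fun l => v.uq_dg _ _
  have hVp' : V ≤ dg (v.uq (μ * H.R)) r ⊔ dg (v.uq ζ) r ⊔ dg (v.uq H.t) 1 ⊔ v.up H.b := by
    refine hVp.trans (le_of_eq ?_)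
    rw [v.uq_dg, v.uq_dg, v.uq_dg, v.up_sup, v.up_sup, v.up_sup]
  have hfull' : r - e2 ≤ h (dg (v.uq (μ * H.R)) r) (V ⊔ (dg (v.uq (μ * H.R)) e2 ⊔ dg (v.uq H.t) 1 ⊔ v.up H.b)) := by
    rw [v.uq_dg, v.uq_dg, v.uq_dg, ← v.up_sup, ← v.up_sup]
    exact hfull
  have U3v : ∀ l, 0 ≤ l → l ≤ r → Uq v.D (dg (v.uq ζ) r) (dg (v.uq ζ) l ⊔ (dg (v.uq (μ * H.R)) r ⊔ v.up H.q))
      ((1 - ρ) * (r - l)) := by
    intro l hl hlr
    rw [v.uq_dg, v.uq_dg, v.uq_dg, dT r hr1, ← v.up_sup, ← v.up_sup]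
    exact (U3 l hl hlr).up v
  -- agreement over the point
  have hPt : (two1 (S := v.D) (fun k ω => H.VB k (v.p.π k ω))).qs α' -
      (two2 (S := v.D) (fun k ω => H.VB k (v.p.π k ω))).qs α' ∈ Id (two (S := v.D) _) (r - e2) := by
    refine pt_agree (D := v.D) (fun k ω => H.VB k (v.p.π k ω)) (vw_bdd v hH.bB) (v.uq H.t) (v.uq H.y)
      (v.uq (μ * H.R)) (v.uq ζ) α' β0 β1 V (v.up H.b) (v.up (dg H.x 1)) r e2 ρ hH.hρ (by linarith) hr1
      (vw_lit v hH.lt) (vw_lit v hH.ly) (vw_lit v (lμB.mul hH.lR)) (vw_lit v lζ) ?_ ?_ ?_ hVp' hα' hβ0 hβ1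
      hZ hfull' ?_
    · rw [vw_io v hH.bB]
      have h1 := v.up_I hH.T1
      rwa [v.up_bot] at h1
    · rw [← hq, ← v.up_sup]
      exact v.up_mono NBH.b_le
    · rw [← hq, v.uq_dg, ← v.up_sup]
      exact v.up_mono NBH.q_le
    · rw [← hq]
      exact U3v
  -- agreement over the line
  have hLn : (two1 (S := v.D) (fun k ω => H.VA k (v.p.π k ω))).qs α' -
      (two2 (S := v.D) (fun k ω => H.VA k (v.p.π k ω))).qs α' ∈ Id (two (S := v.D) _) (r - e2) := by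
    refine ln_agree (D := v.D) (fun k ω => H.VA k (v.p.π k ω)) (vw_bdd v hH.bA) (v.uq H.t) (v.uq H.x) (v.uq H.a)
      (v.uq (μ * H.cR)) (v.uq (μ * H.F)) (v.uq cζ) (v.uq vζ) α' β0 β1 V (v.up H.q) r e2 ρ hH.hρ (by linarith)
      (by linarith) hr1 (vw_lit v hH.lx) (vw_lit v hH.la) (vw_lit v (lμA.mul hH.lcR)) (vw_lit v (lμA.mul hH.lF))
      (vw_lit v lcζ) (vw_lit v lvζ) ?_ ?_ ?_ ?_ hα' hβ0 hβ1 ?_ ?_ ?_ ?_
    · refine le_antisymm (h_dg_le_one _ _) ?_
      rw [vw_io v hH.bA]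
      have h1 : (1 : ℝ) - 0 ≤ h (dg H.t 1) H.iA := by rw [sub_zero]; exact hH.time.ge
      have h2 := full_up H.t zero_le_one (by rw [dg_nonpos _ le_rfl]; exact bot_le) h1 v
      rw [sub_zero] at h2
      exact h2
    · rw [← hb, v.uq_dg, ← v.up_sup]
      exact v.up_mono NBH.q_le
    · rw [← hb]
      refine hVl.trans (le_of_eq ?_)
      rw [v.uq_dg, v.uq_dg, v.uq_dg, v.uq_dg, v.up_sup, v.up_sup, v.up_sup, v.up_sup]
    · rw [← hb, eTv, eZv]
      exact hVp'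
    · rw [eTv, eZv]
      exact hZ
    · rw [← hb, eTv]
      exact hfull'
    · intro D' q' τ
      rw [← hb, eTv, v.uq_dg, v.uq_dg, ← v.up_sup]
      exact hcmp D' q' τ
    · rw [eTv, eZv]
      exact U3v
  -- literal functions
  obtain ⟨gB0, lgB0, hgB0⟩ := lit_of_two hPt
  obtain ⟨gA0, lgA0, hgA0⟩ := lit_of_two hLn
  obtain ⟨fB0, lfB0, rfl⟩ := lit_desc v lgB0
  obtain ⟨fA0, lfA0, rfl⟩ := lit_desc v lgA0
  have hag : v.uq (fA0 - fB0) ∈ Id v.D (r - e2) := by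
    have h1 := (Id v.D (r - e2)).sub_mem hgB0 hgA0
    have e1 : α' - v.uq fB0 - (α' - v.uq fA0) = v.uq (fA0 - fB0) := by rw [map_sub]; ring
    rwa [e1] at h1
  obtain ⟨fA, fB, E1, lfA, lfB, hA, hB, heq, hp⟩ := round_vw v lfA0 lfB0 (δ := r - e2) (δ' := r - e2 - η)
    (by linarith) (by linarith) hag
  obtain ⟨A, hAp, hE1, u, hu⟩ := desc2 v E1 hp
  refine ⟨fA, fB, E1, hE1, u, lfA, lfB, heq hE1, fun a' ha1 ha2 => ?_⟩
  rw [← hu]
  -- the space of the event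
  set w' : Vw v.D := Vw.ev A hAp with hw'
  have ew : ∀ x, restL A hAp x = w'.up x := fun x => (Vw.ev_up A hAp x).symm
  have hconst : w'.up (v.up (dg fB 1)) = ⊥ := by
    have h1 := hu (dg fB 1) ⊥
    have h2 : restL E1 hE1 (dg fB 1) = ⊥ := by
      rw [← QS.rest_dg]
      exact hH.agr E1 hE1 fA fB lfA lfB (heq hE1)
    rw [h2, u.up_bot, h_zero bot_le, v.up_bot, restL_bot, ew] at h1
    exact le_bot_iff.mp (h_eq_zero_iff.mp h1)
  rw [ew, ew]
  -- fullness over the label of the plank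
  set T : QS v.D := v.uq (μ * H.R) with hT
  have dTu : ∀ l, l ≤ 1 → dg (w'.uq T) l = w'.up (v.up (dg H.R (l - π))) := by
    intro l hl
    rw [w'.uq_dg, hT, v.uq_dg, dT l hl]
  have F1 : r - e2 ≤ h (dg (w'.uq T) r) (w'.up (V ⊔ (dg T e2 ⊔ dg (v.uq H.t) 1 ⊔ v.up H.b))) :=
    full_up T (by linarith) ((le_sup_left.trans le_sup_left).trans le_sup_right) hfull' w'
  -- the new projection
  set g := α + μ * fB with hg
  have ezg : v.uq (H.z - g * H.R) = v.uq ζ - v.uq fB * T := by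
    rw [hT, hζ, hg, ← map_mul, ← map_sub]
    congr 1
    ring
  have hsm : α' - v.uq fB ∈ Id v.D (r - e2 - η) := by
    have h1 := Id_anti (show r - e2 - η ≤ r - e2 by linarith) hgB0
    have h2 := v.uq_mem hB
    have e1 : α' - v.uq fB = (α' - v.uq fB0) - v.uq (fB - fB0) := by rw [map_sub]; ring
    rw [e1]
    exact (Id v.D (r - e2 - η)).sub_mem h1 h2
  have hdf : ∀ l, l ≤ 1 → ∀ B : w'.D.L, dg (w'.uq (v.uq fB)) l ≤ B := by
    intro l hl B
    refine (dg_mono _ hl).trans ?_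
    rw [w'.uq_dg, v.uq_dg, hconst]
    exact bot_le
  have c1 : w'.up (v.up (dg (H.z - g * H.R) r)) ≤
      w'.up (V ⊔ dg (v.uq H.t) 1) ⊔ dg (w'.uq T) (e2 + η) := by
    have h1 : v.uq (H.z - g * H.R) - (β0 + β1 * v.uq H.t + T * (α' - v.uq fB)) ∈ Id v.D r := by
      have e1 : v.uq (H.z - g * H.R) - (β0 + β1 * v.uq H.t + T * (α' - v.uq fB)) =
          v.uq ζ - (β0 + β1 * v.uq H.t + α' * T) := by rw [ezg]; ring
      rw [e1]
      exact hZ
    have h2 := w'.uq_mem h1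
    rw [map_sub] at h2
    rw [← v.uq_dg, ← w'.uq_dg, dg_of_sub h2 le_rfl hr1]
    simp only [map_add, map_mul, map_sub]
    have k0 : dg (w'.uq β0) r ≤ w'.up (V ⊔ dg (v.uq H.t) 1) := by
      rw [w'.uq_dg]; exact w'.up_mono (hβ0.trans le_sup_left)
    have k1 : dg (w'.uq β1) r ≤ w'.up (V ⊔ dg (v.uq H.t) 1) := by
      rw [w'.uq_dg]; exact w'.up_mono (hβ1.trans le_sup_left)
    have k2 : dg (w'.uq (v.uq H.t)) r ≤ w'.up (V ⊔ dg (v.uq H.t) 1) := by
      rw [w'.uq_dg]; exact w'.up_mono ((dg_mono _ hr1).trans le_sup_right)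
    have k3 : dg (w'.uq α' - w'.uq (v.uq fB)) r ≤ w'.up (V ⊔ dg (v.uq H.t) 1) := by
      refine dg_sub_le' _ _ hr1 ?_ (hdf r hr1 _)
      rw [w'.uq_dg]; exact w'.up_mono (hα'.trans le_sup_left)
    have k4 : w'.uq α' - w'.uq (v.uq fB) ∈ Id w'.D (r - e2 - η) := by
      rw [← map_sub]; exact w'.uq_mem hsm
    have k5 := Helper82.TP.dg_mul_small (w'.uq T) (w'.uq α' - w'.uq (v.uq fB)) (a := r - e2 - η) (b := e2 + η)
      (by linarith) (by linarith) (by linarith) k4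
    have e3 : r - e2 - η + (e2 + η) = r := by ring
    rw [e3] at k5
    refine dg_add_le' _ _ hr1 ((dg_add_le' _ _ hr1 k0 (dg_mul_le' _ _ hr1 k1 k2)).trans le_sup_left) ?_
    exact k5.trans (sup_le le_sup_right (k3.trans le_sup_left))
  have c2 : w'.up (v.up (dg (H.z - g * H.R) r)) ≤ w'.up (v.up (dg ζ r)) ⊔ dg (w'.uq T) r := by
    rw [← v.uq_dg, ← w'.uq_dg, ezg, map_sub, map_mul]
    refine dg_sub_le' _ _ hr1 ?_ (dg_mul_le' _ _ hr1 (hdf r hr1 _) le_sup_right)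
    rw [w'.uq_dg, v.uq_dg]
    exact le_sup_left
  -- fullness of `R` beyond `r - π`
  have hw1s : 0 ≤ w1 * s := mul_nonneg (by linarith [hH.hw1]) (hH.pos s hs).le
  have G0 : 1 - (r - π) ≤ h (w'.up (v.up (dg H.R 1))) (w'.up (v.up (dg ζ r ⊔ (H.q ⊔ dg H.R (r - π))))) := by
    have h1 := hH.U2 hs hα hc h0 hπ hr
    have h2 := full_up H.R (by linarith) (le_sup_right.trans le_sup_right) h1 v
    rw [v.uq_dg] at h2
    have h3 := full_up (v.uq H.R) (r := r - π) (s := 1) (by linarith)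
      (A := v.up (dg ζ r ⊔ (H.q ⊔ dg H.R (r - π)))) (by
        rw [v.uq_dg]; exact v.up_mono (le_sup_right.trans le_sup_right)) (by rw [v.uq_dg]; exact h2) w'
    rwa [w'.uq_dg, v.uq_dg] at h3
  set X := w'.up (v.up (dg (H.z - g * H.R) r ⊔ (H.q ⊔ dg H.R a'))) with hX
  have X1 : w'.up (v.up (dg (H.z - g * H.R) r)) ≤ X := w'.up_mono (v.up_mono le_sup_left)
  have dTr : dg (w'.uq T) r = w'.up (v.up (dg H.R (r - π))) := dTu r hr1
  have eX : X = w'.up (v.up (dg (H.z - g * H.R) r)) ⊔ (w'.up (v.up H.q) ⊔ w'.up (v.up (dg H.R a'))) := by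
    rw [hX, v.up_sup, v.up_sup, w'.up_sup, w'.up_sup]
  have eG : w'.up (v.up (dg ζ r ⊔ (H.q ⊔ dg H.R (r - π)))) =
      w'.up (v.up (dg ζ r)) ⊔ (w'.up (v.up H.q) ⊔ w'.up (v.up (dg H.R (r - π)))) := by
    rw [v.up_sup, v.up_sup, w'.up_sup, w'.up_sup]
  rcases le_total a' (r - π) with hcase | hcase
  · have k1 : h (w'.up (v.up (dg H.R 1))) X = h (w'.up (v.up (dg H.R (r - π)))) X +
        h (w'.up (v.up (dg H.R 1))) (w'.up (v.up (dg H.R (r - π))) ⊔ X) := by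
      rw [← h_chain]
      congr 1
      exact (sup_eq_right.mpr (w'.up_mono (v.up_mono (dg_mono H.R (by linarith))))).symm
    have k2 : 1 - (r - π) ≤ h (w'.up (v.up (dg H.R 1))) (w'.up (v.up (dg H.R (r - π))) ⊔ X) := by
      refine G0.trans (h_anti ?_)
      rw [eG, eX]
      refine sup_le (le_sup_right.trans le_sup_right) (sup_le (c2.trans ?_) (sup_le ?_ ?_))
      · rw [dTr]
        exact sup_le le_sup_left (le_sup_right.trans le_sup_right)
      · exact le_sup_left.trans le_sup_right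
      · exact (w'.up_mono (v.up_mono (dg_mono H.R hcase))).trans (le_sup_right.trans le_sup_right)
    have k3 := full_high (w'.uq T) (r := e2) (r' := a' + π) (s := r) (by linarith) (by linarith)
      (A := w'.up (V ⊔ (dg T e2 ⊔ dg (v.uq H.t) 1 ⊔ v.up H.b))) (by
        rw [w'.uq_dg]; exact w'.up_mono ((le_sup_left.trans le_sup_left).trans le_sup_right)) F1
    have k4 : dg (w'.uq T) (a' + π) = w'.up (v.up (dg H.R a')) := by
      rw [dTu _ (by linarith), add_sub_cancel_right]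
    have k5 : r - (a' + π) ≤ h (w'.up (v.up (dg H.R (r - π)))) X := by
      rw [dTr] at k3
      refine k3.trans (h_anti ?_)
      rw [eX]
      refine sup_le (c1.trans ?_) (sup_le ?_ ?_)
      · refine sup_le ((w'.up_mono ?_).trans le_sup_left) ((dg_mono _ (by linarith)).trans le_sup_right)
        exact sup_le le_sup_left ((le_sup_right.trans le_sup_left).trans le_sup_right)
      · refine (w'.up_mono ((v.up_mono NBH.q_le).trans ?_)).trans le_sup_left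
        rw [v.up_sup, ← v.uq_dg]
        exact sup_le ((le_sup_right.trans le_sup_left).trans le_sup_right) (le_sup_right.trans le_sup_right)
      · rw [k4]
        exact le_sup_right
    refine le_trans ?_ (le_of_eq k1.symm)
    linarith
  · have k1 := full_high (w'.uq (v.uq H.R)) (r := r - π) (r' := a') (s := 1) hcase ha2
      (A := w'.up (v.up (dg ζ r ⊔ (H.q ⊔ dg H.R (r - π))))) (by
        rw [w'.uq_dg, v.uq_dg]
        exact w'.up_mono (v.up_mono (le_sup_right.trans le_sup_right))) (by rw [w'.uq_dg, v.uq_dg]; exact G0)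
    rw [w'.uq_dg, v.uq_dg, w'.uq_dg, v.uq_dg] at k1
    refine k1.trans (h_anti ?_)
    rw [eG, eX]
    refine sup_le (c2.trans ?_) (sup_le ?_ le_sup_right)
    · rw [dTr]
      exact sup_le (le_sup_left.trans le_sup_left) ((le_sup_right.trans le_sup_right).trans le_sup_left)
    · exact (le_sup_left.trans le_sup_right).trans le_sup_left

end

end Pool.Agent.Helper54.NB
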