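import Pool.Agent.Helper54.NB.Step

/-! LEMMA NB: consequences of a constant tilt over which `R` is full. -/

set_option autoImplicit false

namespace Pool.Agent.Helper54.NB

open Finset Filter Topology Pool.Agent.Helper69.RK Pool.Agent.Helper31.EC Pool.Agent.Helper82.TP
open Pool.Agent.Helper46.LIN Pool.Agent.Helper25.EC Pool.Agent.Helper62.UR
open Pool.Agent.Helper57.TA (sc)
open Pool.Agent.Helper8.PLK (lit_desc round_vw exhaust)

noncomputable section

open Sp QS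

/-- a literal constant tilt such that, in some view, `R` is full over `z - g R` (up to `r`) beyond every level `≥ a0` -/
structure Tlt {S : Sp} (H : NBD S) (g : QS S) (r a0 : ℝ) (u : Vw S) : Prop where
  lA : Lit H.VA g
  lB : Lit H.VB g
  c0 : dg g 1 = ⊥
  fu : ∀ a', a0 ≤ a' → a' ≤ 1 → 1 - a' ≤ h (u.up (dg H.R 1)) (u.up (dg (H.z - g * H.R) r ⊔ (H.q ⊔ dg H.R a')))

/-- a state: a literal constant tilt close to the tilt of the label -/
structure Sta {S : Sp} (H : NBD S) (α : QS S) (π s : ℝ) : Prop where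
  lA : Lit H.VA α
  lB : Lit H.VB α
  c0 : dg α 1 = ⊥
  cl : α - H.c s ∈ Id S π

theorem rest_q {S : Sp} (H : NBD S) (E : ∀ k, (S.F k).Ω → Prop) (hE : 0 < ul (S.pr E)) :
    (H.rest E hE).q = restL E hE H.q := by
  have e1 : (H.rest E hE).y = QS.rest E hE H.y := by
    show QS.rest E hE H.a + QS.rest E hE H.t * QS.rest E hE H.x = QS.rest E hE (H.a + H.t * H.x)
    rw [map_add, map_mul]
  show dg (QS.rest E hE H.t) 1 ⊔ dg (H.rest E hE).y 1 = restL E hE (dg H.t 1 ⊔ dg H.y 1)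
  rw [e1, QS.rest_dg, QS.rest_dg, restL_sup]

theorem rest_b {S : Sp} (H : NBD S) (E : ∀ k, (S.F k).Ω → Prop) (hE : 0 < ul (S.pr E)) :
    (H.rest E hE).b = restL E hE H.b := by
  show dg (QS.rest E hE H.x) 1 ⊔ dg (QS.rest E hE H.a) 1 = restL E hE (dg H.x 1 ⊔ dg H.a 1)
  rw [QS.rest_dg, QS.rest_dg, restL_sup]

theorem rest_R {S : Sp} (H : NBD S) (E : ∀ k, (S.F k).Ω → Prop) (hE : 0 < ul (S.pr E)) :
    (H.rest E hE).R = QS.rest E hE H.R := by
  show QS.rest E hE H.cR + QS.rest E hE H.t * QS.rest E hE H.F = QS.rest E hE (H.cR + H.t * H.F)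
  rw [map_add, map_mul]

theorem rest_z {S : Sp} (H : NBD S) (E : ∀ k, (S.F k).Ω → Prop) (hE : 0 < ul (S.pr E)) :
    (H.rest E hE).z = QS.rest E hE H.z := by
  show QS.rest E hE H.cz + QS.rest E hE H.t * QS.rest E hE H.v = QS.rest E hE (H.cz + H.t * H.v)
  rw [map_add, map_mul]

/-- a function which is small in a view is small on an event of the space below -/
theorem small_ev {S : Sp} (u : Vw S) (f : QS S) {δ : ℝ} (hδ : δ ≤ 1) (hf : u.uq f ∈ Id u.D δ) :
    ∃ E1 : ∀ k, (S.F k).Ω → Prop, (∀ hE1 : 0 < ul (S.pr E1), QS.rest E1 hE1 f ∈ Id (S.rest E1) δ) ∧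
      Typ (S := u.D) (fun k ω => E1 k (u.p.π k ω)) := by
  obtain ⟨G, rfl⟩ := mk_surj f
  have h1 : mk (S := u.D) (TR.rest u.E (u.p.tr G)) ∈ Id u.D δ := by
    have h2 : u.uq (mk G) = mk (S := u.D) (TR.rest u.E (u.p.tr G)) := by
      rw [u.uq_apply, Pj.qs_mk, QS.rest_mk]
    rw [← h2]; exact hf
  rw [mk_mem_Id hδ] at h1
  obtain ⟨A, K, hA, hK, hh⟩ := h1
  have hKS : S.Sub K := by
    have e1 : ∀ k, (u.D.F k).n = (S.F k).n := fun k => u.p.hn k
    unfold Sp.Sub at hK ⊢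
    simp only [e1] at hK
    exact hK
  refine ⟨fun k ω => |TR.ev G k ω| ≤ K k * S.dl δ k, fun hE1 => ?_, ?_⟩
  · rw [QS.rest_mk, mk_mem_Id hδ]
    refine ⟨fun _ _ => True, K, Typ_true, hKS, ?_⟩
    filter_upwards [rest_mem _ hE1] with k hk ω hω _
    have h2 := (hk ω hω).2
    show |TR.ev G k ω - 0| ≤ _
    rw [sub_zero]
    exact h2
  · refine hA.mono ?_
    filter_upwards [hh] with k hk ω hω hAω
    have h2 := hk ω hω hAω
    rw [TR.ev_zero, sub_zero] at h2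
    have h3 : (u.D).dl δ k = S.dl δ k := by
      show (u.W).dl δ k = S.dl δ k
      unfold Sp.dl
      rw [u.p.hn k]
    rw [h3] at h2
    exact h2

section

variable {S : Sp} {H : NBD S} {w1 w ρ σ : ℝ} {Sc : Set ℝ}

/-- constants are constants in views -/
theorem Tlt.dgu {g : QS S} {r a0 : ℝ} {u : Vw S} (ht : Tlt H g r a0 u) {l : ℝ} (hl : l ≤ 1) (A : u.D.L) :
    dg (u.uq g) l ≤ A := by
  refine (dg_mono _ hl).trans ?_
  rw [u.uq_dg, ht.c0, u.up_bot]
  exact bot_le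

/-- (E) the tilt is close to the tilts of the labels (in the view) -/
theorem Tlt.close {g : QS S} {r a0 : ℝ} {u : Vw S} (ht : Tlt H g r a0 u) (hH : NBH H w1 w ρ σ Sc) {s r2 a' : ℝ}
    (hs : s ∈ Sc) (hr2 : r2 ≤ r) (hr2s : r2 ≤ w * s) (ha0 : a0 ≤ a') (has : w1 * s ≤ a') :
    u.uq (g - H.c s) ∈ Id u.D (r2 - a') := by
  rcases le_total r2 a' with hra | hra
  · exact mem_Id_nonpos (by linarith)
  have hr21 : r2 ≤ 1 := hr2s.trans (hH.ws_le hs)
  have ha0' : 0 ≤ a' := le_trans (mul_nonneg (by linarith [hH.hw1]) (hH.pos s hs).le) has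
  obtain ⟨e, he, hz⟩ := hH.frZ s hs
  set ζ := H.z - g * H.R with hζ
  have ez : u.uq ζ + u.uq H.R * u.uq g = u.uq H.z := by
    rw [hζ, ← map_mul, ← map_add]
    congr 1
    ring
  have dR : ∀ l, dg (u.uq H.R) l = u.up (dg H.R l) := fun l => u.uq_dg _ _
  rw [map_sub]
  refine m1_qs (u.uq g) (u.uq ζ) (u.uq H.R) (u.uq (H.c s)) (u.uq e) (u.up (H.q ⊔ dg H.R a')) (u.up (dg ζ r2))
    (u.up (H.K s)) r2 a' ρ hH.hρ ha0' hr21 ?_ ?_ ?_ ?_ ?_ ?_ ?_ ?_ ?_ ?_
  · rw [ez, ← map_mul, ← map_add, ← map_sub]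
    refine Id_anti hr2s (u.uq_mem ?_)
    have e1 : H.z - (e + H.R * H.c s) = H.z - (e + H.c s * H.R) := by ring
    rw [e1]
    exact hz
  · rw [dR]; exact u.up_mono le_sup_right
  · exact ht.dgu hr21 _
  · rw [u.uq_dg]; exact le_sup_left
  · rw [u.uq_dg]; exact u.up_mono ((dg_mono _ hr21).trans (hH.cK s hs))
  · rw [u.uq_dg, ← u.up_sup]
    refine u.up_mono ((dg_mono _ hr21).trans (he.trans ?_))
    exact sup_le le_sup_left (le_sup_left.trans le_sup_right)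
  · rw [← u.up_sup]
    have h1 := ht.fu a' ha0 (hra.trans hr21)
    have h2 : 1 - a' ≤ h (dg (u.uq H.R) 1) (u.up (dg ζ r2 ⊔ (H.q ⊔ dg H.R a'))) := by
      rw [dR]
      refine h1.trans (h_anti (u.up_mono (sup_le ((dg_mono _ hr2).trans le_sup_left) le_sup_right)))
    exact full_low (u.uq H.R) hr21 h2
  · rw [← u.up_sup]
    have h1 := hH.fullK hs has (hra.trans hr21)
    have h2 := full_up H.R (hra.trans hr21) le_sup_right h1 u
    rw [sup_assoc] at h2
    exact full_low (u.uq H.R) hr21 h2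
  · apply I_zero_of_le_left
    rw [ez, dR, u.uq_dg, ← u.up_sup, ← u.up_sup]
    refine u.up_mono (NBH.dg_zeta g ht.c0 hr21 ?_ ?_)
    · exact le_sup_right.trans le_sup_left
    · exact le_sup_left.trans le_sup_left
  · intro E hE v hv1 hv2
    rw [ez, u.uq_dg, u.uq_dg, dR, ← u.up_sup, ← u.up_sup]
    have h0 : (0 : QS S) - H.c s ∈ Id S 0 := mem_Id_nonpos le_rfl
    have hd0 : dg (0 : QS S) 1 = ⊥ := dg_of_mem_Id (Id S 1).zero_mem le_rfl le_rfl
    have h1 := hH.U3 hs hd0 h0 le_rfl (π := 0) (r := r2) (by linarith) hr2s v (ha0'.trans hv1) hv2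
    rw [zero_mul, sub_zero, sub_zero] at h1
    have h2 := h1.up u (Vw.ev E hE)
    rw [Vw.ev_up, Vw.ev_up] at h2
    refine le_trans (h_anti ?_) h2
    refine restL_mono E hE (u.up_mono ?_)
    refine sup_le le_sup_left (sup_le ?_ ?_)
    · exact le_sup_left.trans le_sup_right
    · exact (le_sup_left.trans le_sup_right).trans le_sup_right

/-- states on events -/
theorem Sta.rest {α : QS S} {π s : ℝ} (lA : Lit H.VA α) (lB : Lit H.VB α) (c0 : dg α 1 = ⊥)
    (E : ∀ k, (S.F k).Ω → Prop) (hE : 0 < ul (S.pr E)) (hc : QS.rest E hE (α - H.c s) ∈ Id (S.rest E) π) :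
    Sta (H.rest E hE) (QS.rest E hE α) π s where
  lA := lit_rest E hE lA
  lB := lit_rest E hE lB
  c0 := by rw [QS.rest_dg, c0, restL_bot]
  cl := by
    show QS.rest E hE α - QS.rest E hE (H.c s) ∈ _
    rw [← map_sub]
    exact hc

/-- (a) the new state, on an event -/
theorem Tlt.next {g : QS S} {r a0 : ℝ} {u : Vw S} (ht : Tlt H g r a0 u) (hH : NBH H w1 w ρ σ Sc) {s r2 a' : ℝ}
    (hs : s ∈ Sc) (hr2 : r2 ≤ r) (hr2s : r2 ≤ w * s) (ha0 : a0 ≤ a') (has : w1 * s ≤ a') {δ : ℝ} (hδ : δ ≤ r2 - a') :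
    ∃ (E : ∀ k, (S.F k).Ω → Prop) (hE : 0 < ul (S.pr E)), Sta (H.rest E hE) (QS.rest E hE g) δ s := by
  have h1 := ht.close hH hs hr2 hr2s ha0 has
  have h2 : δ ≤ 1 := by
    have h3 := hH.ws_le hs
    have h4 : 0 ≤ a' := le_trans (mul_nonneg (by linarith [hH.hw1]) (hH.pos s hs).le) has
    linarith
  obtain ⟨E1, hE1, hT⟩ := small_ev u (g - H.c s) h2 (Id_anti hδ h1)
  obtain ⟨hp, _, _⟩ := desc u E1 hT
  exact ⟨E1, hp, Sta.rest ht.lA ht.lB ht.c0 E1 hp (hE1 hp)⟩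

/-- (b) no window between -/
theorem Tlt.absurd {g : QS S} {r a0 : ℝ} {u : Vw S} (ht : Tlt H g r a0 u) (hH : NBH H w1 w ρ σ Sc)
    (hr : r ≤ 1) {c : ℝ} (hc : c ∈ Sc) (hcr : w * c < r) (ha0 : a0 ≤ w1 * c) : False := by
  have hc0 := hH.pos c hc
  have hww := hH.w1s_le hc
  have hw1c : 0 ≤ w1 * c := mul_nonneg (by linarith [hH.hw1]) hc0.le
  have h1 := ht.close hH hc hcr.le le_rfl ha0 le_rfl
  obtain ⟨E1, hE1, hT⟩ := small_ev u (g - H.c c) (by linarith) h1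
  obtain ⟨hp, u', hu'⟩ := desc u E1 hT
  set ζ := H.z - g * H.R with hζ
  have hsm : QS.rest E1 hp (g - H.c c) ∈ Id (S.rest E1) ((w - w1) * c) := by
    have e1 : (w - w1) * c = w * c - w1 * c := by ring
    rw [e1]
    exact hE1 hp
  have hH' : NBH (H.rest E1 hp) w1 w ρ σ Sc := hH.rest E1 hp
  -- the projection is full beyond the box of the label on the event
  have h2 := hH.H4 E1 hp g g ht.lA ht.lB rfl c hc hsm
  -- the digits of the projection are known to the label on the event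
  have h3 : restL E1 hp (dg ζ (w * c)) ≤ restL E1 hp (H.K c ⊔ H.q) := by
    have st := Sta.rest ht.lA ht.lB ht.c0 E1 hp hsm
    have h4 := hH'.U1 (π := (w - w1) * c) (r := w * c) hc st.c0 st.cl (by linarith) le_rfl (by
      rw [sub_mul]; linarith)
    have e1 : w * c - (w - w1) * c = w1 * c := by ring
    rw [e1] at h4
    have h5 := hH'.frR c hc
    have h6 : dg ((H.rest E1 hp).z - QS.rest E1 hp g * (H.rest E1 hp).R) (w * c) ≤
        (H.rest E1 hp).K c ⊔ (H.rest E1 hp).q := h4.trans (sup_le le_rfl h5)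
    rw [rest_z, rest_R, rest_q, ← map_mul, ← map_sub, QS.rest_dg] at h6
    rw [restL_sup]
    exact h6
  have h4 : r - w * c ≤ h (u.up (dg ζ r)) (u.up (H.K c ⊔ H.q)) := by
    rw [hu', ]
    have h5 := full_low (QS.rest E1 hp ζ) hr h2
    have h6 := full_up (QS.rest E1 hp ζ) hcr.le (by rw [QS.rest_dg]; exact h3) h5 u'
    rwa [Vw.uq_dg, QS.rest_dg] at h6
  have h5 : u.up (dg ζ (w * c)) ≤ u.up (H.K c ⊔ H.q) := by
    rw [← h_eq_zero_iff, hu']
    exact h_zero (u'.up_mono h3)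
  -- the upper bound
  have h6 : u.up (dg ζ (w * c)) ⊔ u.up (H.q ⊔ dg H.R (w1 * c)) ≤ u.up (H.K c ⊔ H.q) :=
    sup_le h5 (u.up_mono (sup_le le_sup_right (hH.frR c hc)))
  have h7 : I (u.up (dg ζ r)) (u.up (dg H.R 1)) (u.up (H.q ⊔ dg H.R (w1 * c))) = 0 := by
    apply le_antisymm _ (I_nonneg _ _ _)
    have k1 := ht.fu (w1 * c) ha0 (by linarith)
    have k2 : h (u.up (dg H.R 1)) (u.up (H.q ⊔ dg H.R (w1 * c))) ≤ 1 - w1 * c :=
      Uq.dg H.R (show w1 * c ≤ 1 by linarith) le_sup_right u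
    rw [I_eq', ← u.up_sup]
    linarith
  have h8 := h_of_I_zero h7 (u.up_mono (dg_mono ζ hcr.le))
  have h9 : h (u.up (dg ζ r)) (u.up (dg H.R 1) ⊔ (u.up (dg ζ (w * c)) ⊔ u.up (H.q ⊔ dg H.R (w1 * c)))) ≤
      (1 - ρ) * (r - w * c) := by
    have k3 : h (u.up (dg H.z r)) (u.up (dg H.z (w * c) ⊔ H.M)) ≤ (1 - ρ) * (r - w * c) :=
      hH.uns u.W u.p u.E u.hE (w * c) r (by linarith) hcr.le hr
    refine le_trans ?_ k3
    rw [← u.up_sup, ← u.up_sup]
    have k4 : h (u.up (dg ζ r)) (u.up (dg H.R 1 ⊔ (dg ζ (w * c) ⊔ (H.q ⊔ dg H.R (w1 * c))))) ≤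
        h (u.up (dg H.z r) ⊔ u.up (dg H.z (w * c) ⊔ H.M)) (u.up (dg H.z (w * c) ⊔ H.M)) := by
      refine (h_mono ?_).trans (h_anti (u.up_mono ?_))
      · rw [← u.up_sup]
        refine u.up_mono (NBH.dg_zeta g ht.c0 hr le_sup_left ?_)
        exact (dg_mono H.R hr).trans ((le_sup_right.trans le_sup_right).trans le_sup_right)
      · refine sup_le ?_ (sup_le ?_ le_sup_left)
        · refine NBH.dg_zeta' g ht.c0 (hcr.le.trans hr) (le_sup_left.trans le_sup_right) ?_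
          exact (dg_mono H.R (hcr.le.trans hr)).trans le_sup_left
        · exact le_sup_left.trans (le_sup_right.trans le_sup_right)
    rwa [h_sup_right_of_le le_rfl] at k4
  have h10 := h_anti (A := u.up (dg ζ r)) h6
  rw [h8] at h10
  have h11 : 0 < ρ * (r - w * c) := mul_pos hH.hρ (by linarith)
  linarith

end

end

end Pool.Agent.Helper54.NB
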